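import Pool.Agent.Lib.MP_f53aaa_nt.TW.Spec

/-!
# MP_f53aaa_nt: sharper final form (suggested by helper96): exponent 2 of the iterated logarithm
-/

set_option autoImplicit false

namespace Pool.Agent.Lib.MP_f53aaa_nt.TW

/-- MODULE NUM2, uses GD, ASM, PI. As NUM, with `τ_j ≤ c 4 ^ j / j ^ 2`, `c = 2 ^ (-16)`:
`3 R |P| ≤ 16 (|P| ∑_{j0 ≤ j < j1} 4 c (R + 4 ^ j) / (j+1) ^ 2 + ∑_{j1 ≤ j < J} 4 c R ^ 2 / (j+1) ^ 2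
+ c R ^ 2 / J ^ 2)`, `∑_{j ≥ i} 1 / (j+1) ^ 2 ≤ 1 / i`, `4 ^ j ≤ R`, `|P| ≥ R / (4 J)`, `j1 = J / 4`. -/
def SpecNum2 : Prop :=
  ¬ ∃ i0 : ℕ, ∀ j ≥ i0, 2 ^ 16 * tc (100 ^ 2 ^ j) * j ^ 2 ≤ 4 ^ j

/-- MODULE FIN2, uses NUM2. The final statement. For large `j` take `x = 100 ^ 2 ^ j`:
`log x = 2 ^ j log 100`, `log log x ≥ j log 2 > 0`, `(log 100 / log 2) ^ 2 < 45 < 64`. -/
def SpecFin2 : Prop :=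
  ∀ x0 : ℝ, ∃ x ≥ x0, Real.log x ^ 2 / (2 ^ 22 * Real.log (Real.log x) ^ 2) ≤
    (({p : ℕ | p.Prime ∧ (p : ℝ) ≤ x ∧ ∃ m, Odd m ∧ p ∣ 8 * (pell m).1 ^ 2 + 1}.ncard : ℕ) : ℝ)

end Pool.Agent.Lib.MP_f53aaa_nt.TW
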