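import Pool.Agent.Lib.MP_f53aaa_nt.TW.Spec
import Mathlib.Analysis.SpecialFunctions.Log.Deriv
import Mathlib.Analysis.Complex.ExponentialBounds
import Pool.Agent.Lib.MP_f53aaa_nt.TW.Spec2

section
/-! # MP_f53aaa_nt: the count of the pairs -/
set_option autoImplicit false

namespace Pool.Agent.Lib.MP_f53aaa_nt.TW.ASMM

open Finset Classical

theorem Lvl_mono {p H H' : ℕ} (h : H ≤ H') (hL : Lvl p H) : Lvl p H' := by
  obtain ⟨a, b, ha, hb, h0, hd⟩ := hL
  exact ⟨a, b, ha.trans h, hb.trans h, h0, hd⟩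

theorem descend {p j0 j1 : ℕ} (h0 : ¬ Lvl p (2 ^ j0)) (h1 : Lvl p (2 ^ j1)) :
    ∃ j, j0 ≤ j ∧ j < j1 ∧ ¬ Lvl p (2 ^ j) ∧ Lvl p (2 ^ (j + 1)) := by
  have hex : ∃ j, Lvl p (2 ^ j) := ⟨j1, h1⟩
  have hs := Nat.find_spec hex
  have hm : Nat.find hex ≤ j1 := Nat.find_min' hex h1
  have hlt : j0 < Nat.find hex := by
    by_contra hc
    push Not at hc
    exact h0 (Lvl_mono (Nat.pow_le_pow_right (by norm_num) hc) hs)
  refine ⟨Nat.find hex - 1, by omega, by omega, Nat.find_min hex (by omega), ?_⟩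
  have : Nat.find hex - 1 + 1 = Nat.find hex := by omega
  rw [this]
  exact hs

/-- the primes of `TP` of level in `(2 ^ j, 2 ^ (j + 1)]` -/
noncomputable def X (j : ℕ) : Finset ℕ :=
  (range (100 ^ 2 ^ (j + 1) + 1)).filter
    (fun p => p ∈ TP ∧ ¬ Lvl p (2 ^ j) ∧ Lvl p (2 ^ (j + 1)))

theorem X_card (j : ℕ) : (X j).card ≤ tc (100 ^ 2 ^ (j + 1)) := by
  unfold X tc
  refine card_le_card ?_
  intro p hp
  rw [mem_filter] at hp ⊢
  exact ⟨hp.1, hp.2.1⟩

/-- the primes of `TP` up to `100 ^ R` not of level `≤ R` -/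
noncomputable def Y (R : ℕ) : Finset ℕ :=
  (range (100 ^ R + 1)).filter (fun p => p ∈ TP ∧ ¬ Lvl p R)

theorem Y_card (R : ℕ) : (Y R).card ≤ tc (100 ^ R) := by
  unfold Y tc
  refine card_le_card ?_
  intro p hp
  rw [mem_filter] at hp ⊢
  exact ⟨hp.1, hp.2.1⟩

theorem mem_X (sz : SpecSz) {p j : ℕ} (hj : 3 ≤ j) (hp : p ∈ TP) (h0 : ¬ Lvl p (2 ^ j))
    (h1 : Lvl p (2 ^ (j + 1))) : p ∈ X j := by
  unfold X
  rw [mem_filter, mem_range]
  refine ⟨?_, hp, h0, h1⟩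
  have h2 : (5 : ℕ) ≤ 2 ^ (j + 1) := by
    calc (5 : ℕ) ≤ 2 ^ 3 := by norm_num
      _ ≤ 2 ^ (j + 1) := Nat.pow_le_pow_right (by norm_num) (by omega)
  have := sz.1 p (2 ^ (j + 1)) h2 h1
  omega

theorem TP_odd {p : ℕ} (hp : p ∈ TP) : p.Prime ∧ p ≠ 2 := by
  obtain ⟨h1, m, _, h2⟩ := hp
  refine ⟨h1, ?_⟩
  rintro rfl
  exact not_two m h2

/-- the pairs `l, n < R`, `l` odd, with `p ∣ W l n` -/
noncomputable def Bx (R p : ℕ) : Finset (ℕ × ℕ) :=
  (range R ×ˢ range R).filter (fun x => Odd x.1 ∧ p ∣ W x.1 x.2)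

theorem one_le (one : SpecOne) {j R l : ℕ} (hl : Odd l) :
    ((X j).biUnion (fun p => (range R).filter (fun n => p ∣ W l n))).card
      ≤ tc (100 ^ 2 ^ (j + 1)) * (2 * (R / 4 ^ j + 1)) := by
  refine card_biUnion_le.trans ?_
  have h1 : ∀ p ∈ X j, ((range R).filter (fun n => p ∣ W l n)).card ≤ 2 * (R / 4 ^ j + 1) := by
    intro p hp
    unfold X at hp
    rw [mem_filter] at hp
    refine (one p hp.2.1 (2 ^ j) hp.2.2.1 l R hl).trans ?_
    have h2 : 4 ^ j ≤ (2 ^ j + 1) ^ 2 := by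
      have : (4 : ℕ) ^ j = (2 ^ j) ^ 2 := by
        rw [← pow_mul, mul_comm, pow_mul]
        norm_num
      rw [this]
      exact Nat.pow_le_pow_left (by omega) 2
    have h3 : R / (2 ^ j + 1) ^ 2 ≤ R / 4 ^ j := Nat.div_le_div_left h2 (by positivity)
    omega
  refine (sum_le_sum h1).trans ?_
  rw [sum_const, smul_eq_mul]
  exact Nat.mul_le_mul_right _ (X_card j)

theorem box_le (box : SpecBox) {j J : ℕ} (hj : j ≤ J) :
    ((X j).biUnion (fun p => Bx (2 ^ J) p)).card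
      ≤ tc (100 ^ 2 ^ (j + 1)) * (2 * 4 ^ (J - j)) := by
  refine card_biUnion_le.trans ?_
  have e1 : (2 ^ J - 1) / 2 ^ j + 1 = 2 ^ (J - j) := by
    have h1 : 2 ^ J = 2 ^ j * 2 ^ (J - j) := by
      rw [← pow_add]
      congr 1
      omega
    have h2 : 0 < 2 ^ j := by positivity
    have h3 : 0 < 2 ^ (J - j) := by positivity
    have h4 : (2 ^ J - 1) / 2 ^ j = 2 ^ (J - j) - 1 := by
      rw [Nat.div_eq_iff h2]
      rw [h1]
      constructor
      · have : (2 ^ (J - j) - 1) * 2 ^ j = 2 ^ j * 2 ^ (J - j) - 2 ^ j := by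
          rw [Nat.sub_mul, one_mul, mul_comm]
        rw [this]
        omega
      · have : (2 ^ (J - j) - 1) * 2 ^ j = 2 ^ j * 2 ^ (J - j) - 2 ^ j := by
          rw [Nat.sub_mul, one_mul, mul_comm]
        rw [this]
        have : 2 ^ j ≤ 2 ^ j * 2 ^ (J - j) := Nat.le_mul_of_pos_right _ h3
        omega
    rw [h4]
    omega
  have h1 : ∀ p ∈ X j, (Bx (2 ^ J) p).card ≤ 2 * 4 ^ (J - j) := by
    intro p hp
    unfold X at hp
    rw [mem_filter] at hp
    obtain ⟨hp1, hp2⟩ := TP_odd hp.2.1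
    refine (box p hp1 hp2 (2 ^ j) (2 ^ J) Nat.one_le_two_pow hp.2.2.1).trans ?_
    rw [e1, ← pow_mul, mul_comm (J - j) 2, pow_mul]
    norm_num
  refine (sum_le_sum h1).trans ?_
  rw [sum_const, smul_eq_mul]
  exact Nat.mul_le_mul_right _ (X_card j)

theorem top_le (box : SpecBox) {R : ℕ} (hR : 1 ≤ R) :
    ((Y R).biUnion (fun p => Bx R p)).card ≤ 2 * tc (100 ^ R) := by
  refine card_biUnion_le.trans ?_
  have h1 : ∀ p ∈ Y R, (Bx R p).card ≤ 2 := by
    intro p hp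
    unfold Y at hp
    rw [mem_filter] at hp
    obtain ⟨hp1, hp2⟩ := TP_odd hp.2.1
    refine (box p hp1 hp2 R R hR hp.2.2).trans ?_
    have : (R - 1) / R = 0 := Nat.div_eq_of_lt (by omega)
    rw [this]
    norm_num
  refine (sum_le_sum h1).trans ?_
  rw [sum_const, smul_eq_mul, mul_comm]
  exact Nat.mul_le_mul_left _ (Y_card R)

theorem specAsm (one : SpecOne) (box : SpecBox) (sz : SpecSz) : SpecAsm := by
  intro j0 j1 J P h3 h01 h1J hP hG
  set R := 2 ^ J with hR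
  have hR8 : 8 ≤ R := by
    calc 8 = 2 ^ 3 := by norm_num
      _ ≤ 2 ^ J := Nat.pow_le_pow_right (by norm_num) (by omega)
  set B : ℕ → Finset ℕ := fun l => (range R).filter
    (fun n => ∃ p ∈ TP, ¬ Lvl p (2 ^ j1) ∧ p ∣ W l n) with hB
  set SA : ℕ := ∑ j ∈ Ico j0 j1, tc (100 ^ 2 ^ (j + 1)) * (2 * (R / 4 ^ j + 1)) with hSA
  -- one `l`
  have step1 : ∀ l ∈ P, ((range R).filter
      (fun n => Odd n ∧ ∃ p ∈ TP, ¬ Lvl p (2 ^ j0) ∧ p ∣ W l n)).card ≤ SA + (B l).card := by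
    intro l hl
    have hsub : (range R).filter
        (fun n => Odd n ∧ ∃ p ∈ TP, ¬ Lvl p (2 ^ j0) ∧ p ∣ W l n) ⊆
        ((Ico j0 j1).biUnion (fun j => (X j).biUnion
          (fun p => (range R).filter (fun n => p ∣ W l n)))) ∪ B l := by
      intro n hn
      rw [mem_filter] at hn
      obtain ⟨hn1, _, p, hp, hL, hd⟩ := hn
      rw [mem_union]
      by_cases hL1 : Lvl p (2 ^ j1)
      · left
        obtain ⟨j, hj0, hj1, hj2, hj3⟩ := descend hL hL1
        rw [mem_biUnion]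
        refine ⟨j, by rw [mem_Ico]; exact ⟨hj0, hj1⟩, ?_⟩
        rw [mem_biUnion]
        exact ⟨p, mem_X sz (by omega) hp hj2 hj3, by rw [mem_filter]; exact ⟨hn1, hd⟩⟩
      · right
        rw [hB]
        simp only [mem_filter]
        exact ⟨hn1, p, hp, hL1, hd⟩
    refine (card_le_card hsub).trans ((card_union_le _ _).trans ?_)
    refine Nat.add_le_add_right ?_ _
    refine card_biUnion_le.trans ?_
    rw [hSA]
    exact sum_le_sum (fun j _ => one_le one (hP l hl).1)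
  -- the box
  have step2 : ∑ l ∈ P, (B l).card ≤
      ∑ j ∈ Ico j1 J, tc (100 ^ 2 ^ (j + 1)) * (2 * 4 ^ (J - j)) + 2 * tc (100 ^ R) := by
    have e1 : ∑ l ∈ P, (B l).card =
        ((P ×ˢ range R).filter (fun x => ∃ p ∈ TP, ¬ Lvl p (2 ^ j1) ∧ p ∣ W x.1 x.2)).card := by
      rw [card_filter, sum_product]
      refine sum_congr rfl ?_
      intro l _
      rw [hB]
      simp only [card_filter]
    rw [e1]
    have hsub : (P ×ˢ range R).filter (fun x => ∃ p ∈ TP, ¬ Lvl p (2 ^ j1) ∧ p ∣ W x.1 x.2) ⊆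
        ((Ico j1 J).biUnion (fun j => (X j).biUnion (fun p => Bx R p))) ∪
          ((Y R).biUnion (fun p => Bx R p)) := by
      intro x hx
      rw [mem_filter, mem_product] at hx
      obtain ⟨⟨hx1, hx2⟩, p, hp, hL, hd⟩ := hx
      have hPl := hP x.1 hx1
      have hmem : x ∈ Bx R p := by
        unfold Bx
        rw [mem_filter, mem_product]
        exact ⟨⟨mem_range.2 hPl.2, hx2⟩, hPl.1, hd⟩
      rw [mem_union]
      by_cases hL1 : Lvl p R
      · left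
        obtain ⟨j, hj0, hj1, hj2, hj3⟩ := descend (j1 := J) hL hL1
        rw [mem_biUnion]
        refine ⟨j, by rw [mem_Ico]; exact ⟨hj0, hj1⟩, ?_⟩
        rw [mem_biUnion]
        exact ⟨p, mem_X sz (by omega) hp hj2 hj3, hmem⟩
      · right
        rw [mem_biUnion]
        refine ⟨p, ?_, hmem⟩
        unfold Y
        rw [mem_filter, mem_range]
        refine ⟨?_, hp, hL1⟩
        have h5 := sz.2 x.1 x.2 R (by omega) hPl.2 (mem_range.1 hx2)
        have h6 : p ≤ W x.1 x.2 := Nat.le_of_dvd (by unfold W; positivity) hd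
        omega
    refine (card_le_card hsub).trans ((card_union_le _ _).trans ?_)
    refine Nat.add_le_add ?_ (top_le box (by omega))
    refine card_biUnion_le.trans ?_
    refine sum_le_sum ?_
    intro j hj
    rw [mem_Ico] at hj
    exact box_le box hj.2.le
  calc 3 * R * P.card = ∑ l ∈ P, 3 * R := by rw [sum_const, smul_eq_mul]; ring
    _ ≤ ∑ l ∈ P, 8 * (SA + (B l).card) :=
        sum_le_sum (fun l hl => (hG l hl).trans (Nat.mul_le_mul_left _ (step1 l hl)))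
    _ = 8 * (P.card * SA + ∑ l ∈ P, (B l).card) := by
        rw [← mul_sum, sum_add_distrib, sum_const, smul_eq_mul]
    _ ≤ 8 * (P.card * SA +
        (∑ j ∈ Ico j1 J, tc (100 ^ 2 ^ (j + 1)) * (2 * 4 ^ (J - j)) + 2 * tc (100 ^ R))) :=
        Nat.mul_le_mul_left _ (Nat.add_le_add_left step2 _)
    _ = _ := by rw [hSA]; ring

end Pool.Agent.Lib.MP_f53aaa_nt.TW.ASMM
end

section
/-!
# MP_f53aaa_nt, TW: module ONE

One `l`: a prime `p` of `TP` not of level at most `H` divides `W l n` for few `n < R`.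
-/
set_option autoImplicit false

namespace Pool.Agent.Lib.MP_f53aaa_nt.TW.ONEM

open Finset

/-- the factorisations over a field in which `2` is a square -/
theorem facts {F : Type*} [Field F] (s : F) (hs : s ^ 2 = 2) : ∃ g : Fˣ,
    (∀ a b : ℕ, ((Prim.E a b : ℤ) : F) =
      ((-2) ^ a - ((g ^ b : Fˣ) : F)) * ((-2) ^ a - (((g ^ b)⁻¹ : Fˣ) : F))) ∧
    (∀ m : ℕ, ((val m : ℕ) : F) =
      (((g ^ m : Fˣ) : F) + 2) * ((((g ^ m)⁻¹ : Fˣ) : F) + 2)) ∧
    (∀ l n : ℕ, Odd l → ((W l n : ℕ) : F) =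
      ((-2) ^ l * ((g ^ n : Fˣ) : F) - 1) * ((-2) ^ l * (((g ^ n)⁻¹ : Fˣ) : F) - 1)) := by
  have hgg : (1 + s) ^ 4 * (1 - s) ^ 4 = 1 := by
    have : (1 + s) * (1 - s) = -1 := by linear_combination -hs
    rw [← mul_pow, this]
    norm_num
  have hgg' : (1 - s) ^ 4 * (1 + s) ^ 4 = 1 := by rw [mul_comm]; exact hgg
  obtain ⟨g, hg1, hg2⟩ : ∃ g : Fˣ, (g : F) = (1 + s) ^ 4 ∧ ((g⁻¹ : Fˣ) : F) = (1 - s) ^ 4 :=
    ⟨⟨(1 + s) ^ 4, (1 - s) ^ 4, hgg, hgg'⟩, rfl, rfl⟩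
  have e1 : ∀ b : ℕ, ((g ^ b : Fˣ) : F) = (1 + s) ^ (2 * (2 * b)) := by
    intro b
    rw [Units.val_pow_eq_pow_val, hg1, ← pow_mul]
    congr 1
    ring
  have e2 : ∀ b : ℕ, (((g ^ b)⁻¹ : Fˣ) : F) = (1 - s) ^ (2 * (2 * b)) := by
    intro b
    rw [← inv_pow, Units.val_pow_eq_pow_val, hg2, ← pow_mul]
    congr 1
    ring
  have e3 : ∀ b : ℕ, ((g ^ b : Fˣ) : F) * (((g ^ b)⁻¹ : Fˣ) : F) = 1 := by
    intro b
    rw [← Units.val_mul, mul_inv_cancel, Units.val_one]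
  have hc : ∀ b : ℕ, 2 * (((pell (2 * b)).1 : ℕ) : F) =
      ((g ^ b : Fˣ) : F) + (((g ^ b)⁻¹ : Fˣ) : F) := by
    intro b
    rw [e1, e2]
    exact (Prim.pell_cast s hs (2 * b)).1
  refine ⟨g, ?_, ?_, ?_⟩
  · intro a b
    have h1 := hc b
    have h3 := e3 b
    generalize ((g ^ b : Fˣ) : F) = G at h1 h3 ⊢
    generalize (((g ^ b)⁻¹ : Fˣ) : F) = G' at h1 h3 ⊢
    have e4 : (4 : F) ^ a = ((-2) ^ a) ^ 2 := by
      rw [← pow_mul, mul_comm, pow_mul]
      norm_num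
    unfold Prim.E
    push_cast
    rw [e4]
    linear_combination (-(-2) ^ a) * h1 - h3
  · intro m
    have h1 := (Prim.pell_cast s hs m).1
    have h3 := e3 m
    have h4 := e1 m
    have h5 := e2 m
    have h6 : (1 + s) ^ (2 * (2 * m)) = ((1 + s) ^ (2 * m)) ^ 2 := by
      rw [← pow_mul]
      congr 1
      ring
    have h7 : (1 - s) ^ (2 * (2 * m)) = ((1 - s) ^ (2 * m)) ^ 2 := by
      rw [← pow_mul]
      congr 1
      ring
    have h8 : (1 + s) ^ (2 * m) * (1 - s) ^ (2 * m) = 1 := by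
      have : (1 + s) * (1 - s) = -1 := by linear_combination -hs
      rw [← mul_pow, this, pow_mul]
      norm_num
    rw [h6] at h4
    rw [h7] at h5
    rw [h4, h5]
    unfold val
    push_cast
    generalize (1 + s) ^ (2 * m) = X at h1 h8 ⊢
    generalize (1 - s) ^ (2 * m) = Y at h1 h8 ⊢
    linear_combination (2 * (2 * (((pell m).1 : ℕ) : F)) + 2 * (X + Y)) * h1 - (X * Y - 3) * h8
  · intro l n hl
    have h1 := hc n
    have h3 := e3 n
    generalize ((g ^ n : Fˣ) : F) = G at h1 h3 ⊢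
    generalize (((g ^ n)⁻¹ : Fˣ) : F) = G' at h1 h3 ⊢
    have e4 : (4 : F) ^ l = (2 ^ l) ^ 2 := by
      rw [← pow_mul, mul_comm, pow_mul]
      norm_num
    have e5 : (-2 : F) ^ l = - 2 ^ l := hl.neg_pow 2
    unfold W
    push_cast
    rw [e5, e4]
    linear_combination (2 ^ l : F) * h1 - (2 ^ l) ^ 2 * h3

/-- elements of a set on which `f` is determined modulo `o`, `o = 0` or `M ≤ o` -/
theorem card_class (S : Finset ℕ) (R M o : ℕ) (hM : 0 < M) (ho : o = 0 ∨ M ≤ o)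
    (hR : ∀ n ∈ S, n < R) (h : ∀ n ∈ S, ∀ n' ∈ S, n ≡ n' [MOD o]) : S.card ≤ R / M + 1 := by
  have h1 : S.card ≤ (range (R / M + 1)).card := by
    refine card_le_card_of_injOn (fun n => n / M) ?_ ?_
    · intro n hn
      simp only [coe_range, Set.mem_Iio]
      have := Nat.div_le_div_right (c := M) (hR n hn).le
      omega
    · intro n hn n' hn' he
      have hmod := h n hn n' hn'
      simp only at he
      have key : ∀ a b : ℕ, a ≤ b → a / M = b / M → a ≡ b [MOD o] → a = b := by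
        intro a b hab hd hm
        have h2 : o ∣ b - a := (Nat.modEq_iff_dvd' hab).1 hm
        have h3 : b - a < M := by
          have ha := Nat.div_add_mod a M
          have hb := Nat.div_add_mod b M
          have hb' := Nat.mod_lt b hM
          rw [hd] at ha
          omega
        rcases ho with ho | ho
        · subst ho
          have := Nat.eq_zero_of_zero_dvd h2
          omega
        · have := Nat.eq_zero_of_dvd_of_lt h2 (by omega)
          omega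
      rcases Nat.le_total n n' with hl | hl
      · exact key n n' hl he hmod
      · exact (key n' n hl he.symm hmod.symm).symm
  rwa [card_range] at h1

/-- pigeonhole: if `g ^ m = -2` and the order of `g` is small then `p` has low level -/
theorem order_ge {F : Type*} [Field F] (p : ℕ) [CharP F p] (g : Fˣ) (m H : ℕ)
    (hE : ∀ a b : ℕ, ((Prim.E a b : ℤ) : F) =
      ((-2) ^ a - ((g ^ b : Fˣ) : F)) * ((-2) ^ a - (((g ^ b)⁻¹ : Fˣ) : F)))
    (hm : ((g ^ m : Fˣ) : F) = -2) (hH : ¬ Lvl p H) :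
    orderOf g = 0 ∨ (H + 1) ^ 2 ≤ orderOf g := by
  by_contra hcon
  push Not at hcon
  obtain ⟨h0, hlt⟩ := hcon
  have hpos : 0 < orderOf g := Nat.pos_of_ne_zero h0
  obtain ⟨x, hx, y, hy, hxy, hf⟩ := exists_ne_map_eq_of_card_lt_of_maps_to
    (s := (range (H + 1)) ×ˢ (range (H + 1))) (t := range (orderOf g))
    (f := fun x : ℕ × ℕ => (m * x.1 + x.2) % orderOf g)
    (by rw [card_product, card_range, card_range, ← sq]; exact hlt)
    (fun x _ => by
      simp only [coe_range, Set.mem_Iio]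
      exact Nat.mod_lt _ hpos)
  have hzero : ∀ a b : ℕ, ((Prim.E a b : ℤ) : F) = 0 → (p : ℤ) ∣ Prim.E a b := by
    intro a b h
    exact (CharP.intCast_eq_zero_iff F p _).1 h
  have hgen : ∀ x y : ℕ × ℕ, x ∈ (range (H + 1)) ×ˢ (range (H + 1)) →
      y ∈ (range (H + 1)) ×ˢ (range (H + 1)) → x ≠ y → y.1 ≤ x.1 →
      (m * x.1 + x.2) % orderOf g = (m * y.1 + y.2) % orderOf g → False := by
    intro x y hx hy hxy hle hf
    rw [mem_product, mem_range, mem_range] at hx hy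
    have h4 : g ^ (m * x.1 + x.2) = g ^ (m * y.1 + y.2) := pow_eq_pow_iff_modEq.2 hf
    obtain ⟨a, ha⟩ : ∃ a, x.1 = y.1 + a := ⟨x.1 - y.1, by omega⟩
    have h5 : g ^ (m * a) * g ^ x.2 = g ^ y.2 := by
      rw [ha, mul_add, add_assoc, pow_add g (m * y.1), pow_add g (m * y.1)] at h4
      have h6 := mul_left_cancel h4
      rw [pow_add] at h6
      exact h6
    have h6 : ((g ^ (m * a) : Fˣ) : F) = (-2) ^ a := by
      rw [pow_mul, Units.val_pow_eq_pow_val, hm]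
    rcases Nat.le_total x.2 y.2 with hl | hl
    · obtain ⟨b, hb⟩ : ∃ b, y.2 = x.2 + b := ⟨y.2 - x.2, by omega⟩
      have h7 : g ^ (m * a) = g ^ b := by
        rw [hb, pow_add, mul_comm] at h5
        exact mul_left_cancel h5
      refine hH ⟨a, b, by omega, by omega, ?_, hzero a b ?_⟩
      · rintro ⟨ha0, hb0⟩
        exact hxy (Prod.ext (by omega) (by omega))
      · rw [hE, ← h6, h7, sub_self, zero_mul]
    · obtain ⟨b, hb⟩ : ∃ b, x.2 = y.2 + b := ⟨x.2 - y.2, by omega⟩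
      have h7 : g ^ (m * a) = (g ^ b)⁻¹ := by
        rw [hb, add_comm, pow_add, ← mul_assoc] at h5
        have h8 : g ^ (m * a) * g ^ b = 1 := by
          have h9 : g ^ (m * a) * g ^ b * g ^ y.2 = 1 * g ^ y.2 := by rw [h5, one_mul]
          exact mul_right_cancel h9
        exact eq_inv_of_mul_eq_one_left h8
      refine hH ⟨a, b, by omega, by omega, ?_, hzero a b ?_⟩
      · rintro ⟨ha0, hb0⟩
        exact hxy (Prod.ext (by omega) (by omega))
      · rw [hE, ← h6, h7, sub_self, mul_zero]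
  rcases Nat.le_total y.1 x.1 with hle | hle
  · exact hgen x y hx hy hxy hle hf
  · exact hgen y x hy hx hxy.symm hle hf.symm

theorem specOne : SpecOne := by
  classical
  intro p hp H hH l R hl
  obtain ⟨hpp, m, -, hpm⟩ := hp
  have : Fact p.Prime := ⟨hpp⟩
  let F := AlgebraicClosure (ZMod p)
  have : CharP F p := inferInstance
  obtain ⟨s, hs⟩ : ∃ s : F, s ^ 2 = 2 := IsAlgClosed.exists_pow_nat_eq 2 (by norm_num)
  obtain ⟨g, hE, hV, hW⟩ := facts s hs
  have h2 : (2 : F) ≠ 0 := by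
    intro h
    have h' : ((2 : ℕ) : F) = 0 := by exact_mod_cast h
    rw [CharP.cast_eq_zero_iff F p] at h'
    have hp2 : p = 2 := (Nat.prime_dvd_prime_iff_eq hpp Nat.prime_two).1 h'
    exact not_two m (hp2 ▸ hpm)
  -- the order of `g`
  have hord : orderOf g = 0 ∨ (H + 1) ^ 2 ≤ orderOf g := by
    have hv : ((val m : ℕ) : F) = 0 := (CharP.cast_eq_zero_iff F p _).2 hpm
    rw [hV, mul_eq_zero] at hv
    rcases hv with hv | hv
    · exact order_ge p g m H hE (by linear_combination hv) hH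
    · have hE' : ∀ a b : ℕ, ((Prim.E a b : ℤ) : F) =
          ((-2) ^ a - ((g⁻¹ ^ b : Fˣ) : F)) * ((-2) ^ a - (((g⁻¹ ^ b)⁻¹ : Fˣ) : F)) := by
        intro a b
        rw [hE, inv_pow, inv_inv, mul_comm]
      have := order_ge p g⁻¹ m H hE' (by rw [inv_pow]; linear_combination hv) hH
      rwa [orderOf_inv] at this
  have hpow : (-2 : F) ^ l ≠ 0 := pow_ne_zero _ (neg_ne_zero.2 h2)
  -- the two classes
  have hsub : (range R).filter (fun n => p ∣ W l n) ⊆
      (range R).filter (fun n => (-2) ^ l * ((g ^ n : Fˣ) : F) - 1 = 0) ∪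
      (range R).filter (fun n => (-2) ^ l * (((g ^ n)⁻¹ : Fˣ) : F) - 1 = 0) := by
    intro n hn
    rw [mem_filter] at hn
    rw [mem_union, mem_filter, mem_filter]
    have hw : ((W l n : ℕ) : F) = 0 := (CharP.cast_eq_zero_iff F p _).2 hn.2
    rw [hW l n hl, mul_eq_zero] at hw
    rcases hw with hw | hw
    · exact Or.inl ⟨hn.1, hw⟩
    · exact Or.inr ⟨hn.1, hw⟩
  have hM : 0 < (H + 1) ^ 2 := by positivity
  have c1 : ((range R).filter (fun n => (-2) ^ l * ((g ^ n : Fˣ) : F) - 1 = 0)).card ≤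
      R / (H + 1) ^ 2 + 1 := by
    refine card_class _ R _ (orderOf g) hM hord (fun n hn => mem_range.1 (mem_filter.1 hn).1) ?_
    intro n hn n' hn'
    have h3 := (mem_filter.1 hn).2
    have h4 := (mem_filter.1 hn').2
    have h5 : ((g ^ n : Fˣ) : F) = ((g ^ n' : Fˣ) : F) := by
      have : (-2 : F) ^ l * ((g ^ n : Fˣ) : F) = (-2) ^ l * ((g ^ n' : Fˣ) : F) := by
        linear_combination h3 - h4
      exact mul_left_cancel₀ hpow this
    exact pow_eq_pow_iff_modEq.1 (Units.ext h5)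
  have c2 : ((range R).filter (fun n => (-2) ^ l * (((g ^ n)⁻¹ : Fˣ) : F) - 1 = 0)).card ≤
      R / (H + 1) ^ 2 + 1 := by
    refine card_class _ R _ (orderOf g) hM hord (fun n hn => mem_range.1 (mem_filter.1 hn).1) ?_
    intro n hn n' hn'
    have h3 := (mem_filter.1 hn).2
    have h4 := (mem_filter.1 hn').2
    have h5 : (((g ^ n)⁻¹ : Fˣ) : F) = (((g ^ n')⁻¹ : Fˣ) : F) := by
      have : (-2 : F) ^ l * (((g ^ n)⁻¹ : Fˣ) : F) = (-2) ^ l * (((g ^ n')⁻¹ : Fˣ) : F) := by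
        linear_combination h3 - h4
      exact mul_left_cancel₀ hpow this
    exact pow_eq_pow_iff_modEq.1 (inv_injective (Units.ext h5))
  calc ((range R).filter (fun n => p ∣ W l n)).card
      ≤ _ := card_le_card hsub
    _ ≤ _ := card_union_le _ _
    _ ≤ (R / (H + 1) ^ 2 + 1) + (R / (H + 1) ^ 2 + 1) := Nat.add_le_add c1 c2
    _ = 2 * (R / (H + 1) ^ 2 + 1) := by ring

end Pool.Agent.Lib.MP_f53aaa_nt.TW.ONEM
end

section
/-!
# MP_f53aaa_nt, TW: module BOX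

The box: a prime `p` not of level at most `H` divides `W l n` for few pairs `l, n < R`, `l` odd.
-/
set_option autoImplicit false

namespace Pool.Agent.Lib.MP_f53aaa_nt.TW.BOXM

open Finset

/-- the division of a pair by `H` is injective on the solutions of `u ^ l * h ^ n = 1` -/
theorem card_half {F : Type*} [Field F] (p : ℕ) [CharP F p] (u h : Fˣ) (H R : ℕ) (hH : 1 ≤ H)
    (hu : (u : F) = -2)
    (hE : ∀ a b : ℕ, ((Prim.E a b : ℤ) : F) =
      ((-2) ^ a - ((h ^ b : Fˣ) : F)) * ((-2) ^ a - (((h ^ b)⁻¹ : Fˣ) : F)))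
    (hL : ¬ Lvl p H) (S : Finset (ℕ × ℕ)) (hS : ∀ x ∈ S, x.1 < R ∧ x.2 < R)
    (h1 : ∀ x ∈ S, u ^ x.1 * h ^ x.2 = 1) : S.card ≤ ((R - 1) / H + 1) ^ 2 := by
  have hua : ∀ a : ℕ, ((u ^ a : Fˣ) : F) = (-2) ^ a := by
    intro a
    rw [Units.val_pow_eq_pow_val, hu]
  have hlow : ∀ a b : ℕ, a ≤ H → b ≤ H → ¬ (a = 0 ∧ b = 0) →
      (u ^ a = h ^ b ∨ u ^ a * h ^ b = 1) → False := by
    intro a b ha hb h0 hor
    refine hL ⟨a, b, ha, hb, h0, (CharP.intCast_eq_zero_iff F p _).1 ?_⟩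
    rw [hE, ← hua]
    rcases hor with hor | hor
    · rw [hor, sub_self, zero_mul]
    · rw [eq_inv_of_mul_eq_one_left hor, sub_self, mul_zero]
  have key : ∀ x ∈ S, ∀ y ∈ S, y.1 ≤ x.1 → x.1 / H = y.1 / H → x.2 / H = y.2 / H → x = y := by
    intro x hx y hy hle e1 e2
    have hx1 := h1 x hx
    have hy1 := h1 y hy
    have hb1 : x.1 - y.1 < H := by
      have ha := Nat.div_add_mod x.1 H
      have hb := Nat.div_add_mod y.1 H
      have ha' := Nat.mod_lt x.1 hH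
      rw [e1] at ha
      omega
    obtain ⟨a, ha⟩ : ∃ a, x.1 = y.1 + a := ⟨x.1 - y.1, by omega⟩
    by_contra hne
    rcases Nat.le_total y.2 x.2 with hl | hl
    · have hb2 : x.2 - y.2 < H := by
        have ha := Nat.div_add_mod x.2 H
        have hb := Nat.div_add_mod y.2 H
        have ha' := Nat.mod_lt x.2 hH
        rw [e2] at ha
        omega
      obtain ⟨b, hb⟩ : ∃ b, x.2 = y.2 + b := ⟨x.2 - y.2, by omega⟩
      refine hlow a b (by omega) (by omega) ?_ (Or.inr ?_)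
      · rintro ⟨ha0, hb0⟩
        exact hne (Prod.ext (by omega) (by omega))
      · rw [ha, hb, pow_add, pow_add] at hx1
        calc u ^ a * h ^ b = (u ^ y.1 * h ^ y.2) * (u ^ a * h ^ b) := by rw [hy1, one_mul]
          _ = u ^ y.1 * u ^ a * (h ^ y.2 * h ^ b) := by
            rw [mul_mul_mul_comm]
          _ = 1 := hx1
    · have hb2 : y.2 - x.2 < H := by
        have ha := Nat.div_add_mod x.2 H
        have hb := Nat.div_add_mod y.2 H
        have hb' := Nat.mod_lt y.2 hH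
        rw [e2] at ha
        omega
      obtain ⟨b, hb⟩ : ∃ b, y.2 = x.2 + b := ⟨y.2 - x.2, by omega⟩
      refine hlow a b (by omega) (by omega) ?_ (Or.inl ?_)
      · rintro ⟨ha0, hb0⟩
        exact hne (Prod.ext (by omega) (by omega))
      · rw [ha, pow_add] at hx1
        rw [hb, pow_add] at hy1
        have h5 : (u ^ y.1 * h ^ x.2) * u ^ a = (u ^ y.1 * h ^ x.2) * h ^ b := by
          calc (u ^ y.1 * h ^ x.2) * u ^ a = u ^ y.1 * u ^ a * h ^ x.2 := by
                rw [mul_right_comm]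
            _ = u ^ y.1 * (h ^ x.2 * h ^ b) := by rw [hx1, hy1]
            _ = (u ^ y.1 * h ^ x.2) * h ^ b := by rw [mul_assoc]
        exact mul_left_cancel h5
  have hc : S.card ≤ (range ((R - 1) / H + 1) ×ˢ range ((R - 1) / H + 1)).card := by
    refine card_le_card_of_injOn (fun x : ℕ × ℕ => (x.1 / H, x.2 / H)) ?_ ?_
    · intro x hx
      have hx' := hS x hx
      have e1 := Nat.div_le_div_right (c := H) (Nat.le_sub_one_of_lt hx'.1)
      have e2 := Nat.div_le_div_right (c := H) (Nat.le_sub_one_of_lt hx'.2)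
      simp only [coe_product, coe_range, Set.mem_prod, Set.mem_Iio]
      omega
    · intro x hx y hy he
      simp only [Prod.mk.injEq] at he
      rcases Nat.le_total y.1 x.1 with hl | hl
      · exact key x hx y hy hl he.1 he.2
      · exact (key y hy x hx hl he.1.symm he.2.symm).symm
  rwa [card_product, card_range, ← sq] at hc

theorem specBox : SpecBox := by
  classical
  intro p hpp hp2 H R hH hL
  have : Fact p.Prime := ⟨hpp⟩
  let F := AlgebraicClosure (ZMod p)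
  have : CharP F p := inferInstance
  obtain ⟨s, hs⟩ : ∃ s : F, s ^ 2 = 2 := IsAlgClosed.exists_pow_nat_eq 2 (by norm_num)
  obtain ⟨g, hE, -, hW⟩ := ONEM.facts s hs
  have h2 : (2 : F) ≠ 0 := by
    intro h
    have h' : ((2 : ℕ) : F) = 0 := by exact_mod_cast h
    rw [CharP.cast_eq_zero_iff F p] at h'
    exact hp2 ((Nat.prime_dvd_prime_iff_eq hpp Nat.prime_two).1 h')
  have hE' : ∀ a b : ℕ, ((Prim.E a b : ℤ) : F) =
      ((-2) ^ a - ((g⁻¹ ^ b : Fˣ) : F)) * ((-2) ^ a - (((g⁻¹ ^ b)⁻¹ : Fˣ) : F)) := by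
    intro a b
    rw [hE, inv_pow, inv_inv, mul_comm]
  let u : Fˣ := Units.mk0 (-2) (neg_ne_zero.2 h2)
  have hu : (u : F) = -2 := Units.val_mk0 _
  have hone : ∀ (l : ℕ) (k : Fˣ), (-2) ^ l * (k : F) - 1 = 0 → u ^ l * k = 1 := by
    intro l k hk
    refine Units.ext ?_
    rw [Units.val_mul, Units.val_pow_eq_pow_val, hu, Units.val_one]
    exact sub_eq_zero.1 hk
  have hsub : (range R ×ˢ range R).filter (fun x => Odd x.1 ∧ p ∣ W x.1 x.2) ⊆
      (range R ×ˢ range R).filter (fun x => u ^ x.1 * g ^ x.2 = 1) ∪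
      (range R ×ˢ range R).filter (fun x => u ^ x.1 * g⁻¹ ^ x.2 = 1) := by
    intro x hx
    rw [mem_filter] at hx
    rw [mem_union, mem_filter, mem_filter]
    have hw : ((W x.1 x.2 : ℕ) : F) = 0 := (CharP.cast_eq_zero_iff F p _).2 hx.2.2
    rw [hW x.1 x.2 hx.2.1, mul_eq_zero] at hw
    rcases hw with hw | hw
    · exact Or.inl ⟨hx.1, hone _ _ hw⟩
    · refine Or.inr ⟨hx.1, ?_⟩
      rw [inv_pow]
      exact hone _ _ hw
  have hmem : ∀ x : ℕ × ℕ, x ∈ range R ×ˢ range R → x.1 < R ∧ x.2 < R := by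
    intro x hx
    have h3 := mem_product.1 hx
    exact ⟨mem_range.1 h3.1, mem_range.1 h3.2⟩
  have c1 := card_half p u g H R hH hu hE hL
    ((range R ×ˢ range R).filter (fun x => u ^ x.1 * g ^ x.2 = 1)) (fun x hx => hmem x (mem_filter.1 hx).1)
    (fun x hx => (mem_filter.1 hx).2)
  have c2 := card_half p u g⁻¹ H R hH hu hE' hL
    ((range R ×ˢ range R).filter (fun x => u ^ x.1 * g⁻¹ ^ x.2 = 1)) (fun x hx => hmem x (mem_filter.1 hx).1)
    (fun x hx => (mem_filter.1 hx).2)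
  calc ((range R ×ˢ range R).filter (fun x => Odd x.1 ∧ p ∣ W x.1 x.2)).card
      ≤ _ := card_le_card hsub
    _ ≤ _ := card_union_le _ _
    _ ≤ ((R - 1) / H + 1) ^ 2 + ((R - 1) / H + 1) ^ 2 := Nat.add_le_add c1 c2
    _ = 2 * ((R - 1) / H + 1) ^ 2 := by ring

end Pool.Agent.Lib.MP_f53aaa_nt.TW.BOXM
end

section
/-! Module CC (helper62): few `n` have `S`-part of `W l n` equal to `val n` modulo `l`. -/
set_option autoImplicit false

namespace Pool.Agent.Lib.MP_f53aaa_nt.TW.CCM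

open Finset

theorem pdouble (n : ℕ) : (pell (n + n)).1 + 1 = 2 * (pell n).1 ^ 2 := by
  have padd : ∀ i j : ℕ,
    (pell (i + j)).1 = (pell i).1 * (pell j).1 + 8 * ((pell i).2 * (pell j).2) ∧
    (pell (i + j)).2 = (pell i).2 * (pell j).1 + (pell i).1 * (pell j).2 := by
    intro i j
    induction j with
    | zero => simp [pell]
    | succ j ih =>
      obtain ⟨h1, h2⟩ := ih
      rw [← add_assoc]
      simp only [pell]
      rw [h1, h2]
      constructor <;> ring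
  have h1 := (padd n n).1
  have h2 := pell_eq n
  rw [h1]
  nlinarith

theorem inv_mod (a m : ℕ) (h : Nat.Coprime a m) : ∃ u : ℤ, (m : ℤ) ∣ (a : ℤ) * u - 1 := by
  have h1 : IsCoprime (a : ℤ) (m : ℤ) := Nat.isCoprime_iff_coprime.2 h
  obtain ⟨x, y, hxy⟩ := h1
  refine ⟨x, -y, ?_⟩
  linear_combination hxy

theorem partA (hW : SpecWin) (s : ℕ) (p l R : ℕ) (hp : p.Prime) (hp2 : p ≠ 2) :
    ((range R).filter (fun n => p ^ (4 * (128 * (s + 1))) ∣ W l n)).card
      ≤ 2 * (R / (128 * (s + 1)) + 1) := by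
  obtain ⟨K, hK⟩ : ∃ K, K = 128 * (s + 1) := ⟨_, rfl⟩
  rw [← hK]
  have hco : Nat.Coprime (2 ^ l) (p ^ (4 * K)) :=
    Nat.Coprime.pow _ _ ((Nat.coprime_primes Nat.prime_two hp).2 hp2.symm)
  obtain ⟨u, hu⟩ := inv_mod _ _ hco
  have h6 : 6 ^ K ≤ p ^ (2 * K) := by
    have h3 : 3 ≤ p := by
      have := hp.two_le
      omega
    have h9 : 6 ≤ p ^ 2 := by nlinarith
    calc 6 ^ K ≤ (p ^ 2) ^ K := Nat.pow_le_pow_left h9 K
      _ = p ^ (2 * K) := (pow_mul p 2 K).symm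
  have h1 := hW p (4 * K) (2 * K) K R (-(u * (4 ^ l + 1))) hp hp2 (by omega) (by omega) (by omega)
    h6
  refine (card_le_card ?_).trans h1
  intro n hn
  simp only [mem_filter, mem_range] at hn ⊢
  refine ⟨hn.1, ?_⟩
  obtain ⟨-, h2⟩ := hn
  have h3 : ((p ^ (4 * K) : ℕ) : ℤ) ∣ ((W l n : ℕ) : ℤ) := by exact_mod_cast h2
  have e : 2 * ((pell (2 * n)).1 : ℤ) - -(u * (4 ^ l + 1)) = u * ((W l n : ℕ) : ℤ) -
      (((2 ^ l : ℕ) : ℤ) * u - 1) * (2 * ((pell (2 * n)).1 : ℤ)) := by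
    unfold W
    push_cast
    ring
  have e2 : ((p : ℤ)) ^ (4 * K) = ((p ^ (4 * K) : ℕ) : ℤ) := by push_cast; rfl
  rw [e, e2]
  exact dvd_sub (Dvd.dvd.mul_left h3 _) (Dvd.dvd.mul_right hu _)

theorem partB (hW : SpecWin) (G g l R : ℕ) (hl : l.Prime) (hl6 : 6 ^ (128 * (G + 2)) ≤ l) :
    ((range R).filter (fun n => g ≡ val n [MOD l])).card
      ≤ 2 * (R / (128 * (G + 2)) + 1) := by
  have hl2 : l ≠ 2 := by
    have h1 : 6 ^ 1 ≤ 6 ^ (128 * (G + 2)) := Nat.pow_le_pow_right (by norm_num) (by omega)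
    omega
  have hco : Nat.Coprime 2 l := (Nat.coprime_primes Nat.prime_two hl).2 hl2.symm
  obtain ⟨u, hu⟩ := inv_mod _ _ hco
  have h1 := hW l 1 1 (128 * (G + 2)) R (u * ((g : ℤ) - 5)) hl hl2 (by omega) (by omega) (by omega)
    (by rw [pow_one]; exact hl6)
  refine (card_le_card ?_).trans h1
  intro n hn
  simp only [mem_filter, mem_range] at hn ⊢
  refine ⟨hn.1, ?_⟩
  obtain ⟨-, h2⟩ := hn
  have h3 : (l : ℤ) ∣ ((val n : ℕ) : ℤ) - (g : ℤ) := (Nat.modEq_iff_dvd).1 h2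
  have h4 : ((pell (2 * n)).1 : ℤ) = 2 * ((pell n).1 : ℤ) ^ 2 - 1 := by
    have h5 := pdouble n
    have e0 : n + n = 2 * n := by ring
    rw [e0] at h5
    have h6 : ((pell (2 * n)).1 : ℤ) + 1 = 2 * ((pell n).1 : ℤ) ^ 2 := by exact_mod_cast h5
    linear_combination h6
  have e : 2 * ((pell (2 * n)).1 : ℤ) - u * ((g : ℤ) - 5) = u * (((val n : ℕ) : ℤ) - (g : ℤ)) -
      (((2 : ℕ) : ℤ) * u - 1) * (2 * ((pell (2 * n)).1 : ℤ)) := by
    unfold val
    push_cast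
    linear_combination (-(4 * u)) * (-1 : ℤ) * h4
  rw [e, pow_one]
  exact dvd_sub (Dvd.dvd.mul_left h3 _) (Dvd.dvd.mul_right hu _)

theorem specCc (hW : SpecWin) : SpecCc := by
  classical
  intro S hS
  obtain ⟨s, hs⟩ : ∃ s, s = S.card := ⟨_, rfl⟩
  obtain ⟨K, hK⟩ : ∃ K, K = 128 * (s + 1) := ⟨_, rfl⟩
  obtain ⟨G, hG⟩ : ∃ G, G = (∏ p ∈ S, p) ^ (4 * K) := ⟨_, rfl⟩
  refine ⟨6 ^ (128 * (G + 2)) + K, ?_⟩
  intro l R hl hl0 hR0
  have hsub : (range R).filter (fun n => gS S l n ≡ val n [MOD l]) ⊆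
      (S.biUnion (fun p => (range R).filter (fun n => p ^ (4 * K) ∣ W l n))) ∪
      ((range (G + 1)).biUnion (fun g => (range R).filter (fun n => g ≡ val n [MOD l]))) := by
    intro n hn
    simp only [mem_filter, mem_range] at hn
    rw [mem_union]
    by_cases h : ∃ p ∈ S, p ^ (4 * K) ∣ W l n
    · left
      obtain ⟨p, hp, h⟩ := h
      rw [mem_biUnion]
      exact ⟨p, hp, by simp only [mem_filter, mem_range]; exact ⟨hn.1, h⟩⟩
    · right
      push Not at h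
      rw [mem_biUnion]
      refine ⟨gS S l n, ?_, by simp only [mem_filter, mem_range]; exact hn⟩
      rw [mem_range, Nat.lt_succ_iff, hG, ← prod_pow]
      unfold gS
      refine prod_le_prod' (fun p hp => ?_)
      refine Nat.pow_le_pow_right (hS p hp).1.pos ?_
      have h1 := h p hp
      have : Fact p.Prime := ⟨(hS p hp).1⟩
      have hW0 : W l n ≠ 0 := by
        unfold W
        positivity
      rw [padicValNat_dvd_iff_le hW0] at h1
      omega
  have h1 := card_le_card hsub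
  have h2 : (S.biUnion (fun p => (range R).filter (fun n => p ^ (4 * K) ∣ W l n))).card ≤
      s * (2 * (R / K + 1)) := by
    rw [hs]
    refine card_biUnion_le_card_mul _ _ _ (fun p hp => ?_)
    have := partA hW s p l R (hS p hp).1 (hS p hp).2
    rw [← hK] at this
    exact this
  have h3 : ((range (G + 1)).biUnion (fun g => (range R).filter
      (fun n => g ≡ val n [MOD l]))).card ≤ (G + 1) * (2 * (R / (128 * (G + 2)) + 1)) := by
    have := card_biUnion_le_card_mul (range (G + 1)) (fun g => (range R).filter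
      (fun n => g ≡ val n [MOD l])) (2 * (R / (128 * (G + 2)) + 1))
      (fun g _ => partB hW G g l R hl (le_trans (Nat.le_add_right _ _) hl0))
    rwa [card_range] at this
  have h4 := (card_union_le (S.biUnion (fun p => (range R).filter (fun n => p ^ (4 * K) ∣ W l n)))
    ((range (G + 1)).biUnion (fun g => (range R).filter (fun n => g ≡ val n [MOD l]))))
  have hKR : K ≤ R := le_trans (Nat.le_add_left _ _) hR0
  have hKR' : 128 * (G + 2) ≤ R := by
    have h5 : 128 * (G + 2) < 6 ^ (128 * (G + 2)) := Nat.lt_pow_self (by norm_num)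
    exact h5.le.trans (le_trans (Nat.le_add_right _ _) hR0)
  have ha : K * (R / K) ≤ R := Nat.mul_div_le R K
  have hb : 128 * (G + 2) * (R / (128 * (G + 2))) ≤ R := Nat.mul_div_le R _
  generalize R / K = a at *
  generalize R / (128 * (G + 2)) = b at *
  have h5 : ((range R).filter (fun n => gS S l n ≡ val n [MOD l])).card ≤
      s * (2 * (a + 1)) + (G + 1) * (2 * (b + 1)) := by omega
  have h6 : 4 * (16 * (s * (2 * (a + 1)) + (G + 1) * (2 * (b + 1)))) ≤ 4 * R := by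
    rw [hK] at ha hKR
    nlinarith
  omega

end Pool.Agent.Lib.MP_f53aaa_nt.TW.CCM
end

section
/-!
# MP_f53aaa_nt, hive TW, module FIN
-/
set_option autoImplicit false

namespace Pool.Agent.Lib.MP_f53aaa_nt.TW.FINM

open Finset

lemma log_hundred_le : Real.log 100 ≤ (113 / 17) * Real.log 2 := by
  have h : ((100 : ℝ)) ^ 17 ≤ 2 ^ 113 := by norm_num
  have h2 := Real.log_le_log (by positivity) h
  rw [Real.log_pow, Real.log_pow] at h2
  push_cast at h2
  linarith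

lemma one_le_log_hundred : 1 ≤ Real.log 100 := by
  have h1 : Real.log ((2 : ℝ) ^ 2) ≤ Real.log 100 :=
    Real.log_le_log (by norm_num) (by norm_num)
  rw [Real.log_pow] at h1
  have := Real.log_two_gt_d9
  push_cast at h1
  linarith

lemma const_bound : Real.log 100 ^ 2 ≤ 64 * Real.log 2 ^ 3 := by
  have h1 := log_hundred_le
  have h0 := one_le_log_hundred
  have h2 := Real.log_two_gt_d9
  have h3 : Real.log 100 ^ 2 ≤ ((113 / 17) * Real.log 2) ^ 2 :=
    pow_le_pow_left₀ (by linarith) h1 2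
  have h4 : ((113 / 17 : ℝ) * Real.log 2) ^ 2 ≤ 64 * Real.log 2 ^ 3 := by
    have h5 : (113 / 17 : ℝ) ^ 2 ≤ 64 * Real.log 2 := by nlinarith
    have h6 : 0 ≤ Real.log 2 ^ 2 := by positivity
    nlinarith
  linarith

lemma ncard_eq (X : ℕ) :
    {p : ℕ | p.Prime ∧ (p : ℝ) ≤ (X : ℝ) ∧ ∃ m, Odd m ∧ p ∣ 8 * (pell m).1 ^ 2 + 1}.ncard
      = tc X := by
  classical
  unfold tc
  rw [← Set.ncard_coe_finset]
  congr 1
  ext p
  simp only [Set.mem_setOf_eq, coe_filter, mem_range, TP, Nat.cast_le, val]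
  constructor
  · rintro ⟨h1, h2, h3⟩
    exact ⟨by omega, h1, h3⟩
  · rintro ⟨h1, h2, h3⟩
    exact ⟨h2, by omega, h3⟩

theorem specFin (h : SpecNum) : SpecFin := by
  intro x0
  by_contra hne
  push Not at hne
  apply h
  refine ⟨max 1 (Nat.ceil x0), fun j hj => ?_⟩
  have hj1 : 1 ≤ j := le_trans (le_max_left _ _) hj
  have hj2 : x0 ≤ (j : ℝ) := by
    have : Nat.ceil x0 ≤ j := le_trans (le_max_right _ _) hj
    exact le_trans (Nat.le_ceil x0) (by exact_mod_cast this)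
  have hbig : x0 ≤ ((100 ^ 2 ^ j : ℕ) : ℝ) := by
    have h1 : j < 2 ^ j := Nat.lt_two_pow_self
    have h2 : 2 ^ j < 100 ^ 2 ^ j := Nat.lt_pow_self (by norm_num)
    have h3 : (j : ℝ) ≤ ((100 ^ 2 ^ j : ℕ) : ℝ) := by
      exact_mod_cast (by omega : j ≤ 100 ^ 2 ^ j)
    linarith
  have h1 := hne _ hbig
  rw [ncard_eq] at h1
  have hlog : Real.log ((100 ^ 2 ^ j : ℕ) : ℝ) = 2 ^ j * Real.log 100 := by
    push_cast
    rw [Real.log_pow]
    push_cast
    ring
  rw [hlog] at h1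
  have hL := one_le_log_hundred
  have hl2 := Real.log_two_gt_d9
  have hll : (j : ℝ) * Real.log 2 ≤ Real.log (2 ^ j * Real.log 100) := by
    rw [Real.log_mul (by positivity) (by linarith), Real.log_pow]
    have := Real.log_nonneg hL
    linarith
  have hjpos : (0 : ℝ) < j := by exact_mod_cast hj1
  have hjl : 0 < (j : ℝ) * Real.log 2 := by positivity
  have h2 : ((2 : ℝ) ^ j * Real.log 100) ^ 2 / Real.log (2 ^ j * Real.log 100) ^ 3
      ≤ (2 ^ j * Real.log 100) ^ 2 / (j * Real.log 2) ^ 3 := by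
    apply div_le_div_of_nonneg_left (by positivity) (by positivity)
    exact pow_le_pow_left₀ hjl.le hll 3
  have h3 : (tc (100 ^ 2 ^ j) : ℝ) ≤ (2 ^ j * Real.log 100) ^ 2 / (j * Real.log 2) ^ 3 :=
    (lt_of_lt_of_le h1 h2).le
  rw [le_div_iff₀ (by positivity)] at h3
  have h4 : (2 : ℝ) ^ j * 2 ^ j = 4 ^ j := by
    rw [← mul_pow]; norm_num
  have h5 : (tc (100 ^ 2 ^ j) : ℝ) * j ^ 3 * Real.log 2 ^ 3 ≤ 64 * 4 ^ j * Real.log 2 ^ 3 := by
    calc (tc (100 ^ 2 ^ j) : ℝ) * j ^ 3 * Real.log 2 ^ 3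
        = tc (100 ^ 2 ^ j) * (j * Real.log 2) ^ 3 := by ring
      _ ≤ (2 ^ j * Real.log 100) ^ 2 := h3
      _ = (2 ^ j * 2 ^ j) * Real.log 100 ^ 2 := by ring
      _ = 4 ^ j * Real.log 100 ^ 2 := by rw [h4]
      _ ≤ 4 ^ j * (64 * Real.log 2 ^ 3) :=
          mul_le_mul_of_nonneg_left const_bound (by positivity)
      _ = 64 * 4 ^ j * Real.log 2 ^ 3 := by ring
  have h6 : (tc (100 ^ 2 ^ j) : ℝ) * j ^ 3 ≤ 64 * 4 ^ j :=
    le_of_mul_le_mul_right h5 (by positivity)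
  exact_mod_cast h6

end Pool.Agent.Lib.MP_f53aaa_nt.TW.FINM
end

section
/-! # MP_f53aaa_nt: the sharper final statement -/
set_option autoImplicit false

namespace Pool.Agent.Lib.MP_f53aaa_nt.TW.FIN2M

open Finset FINM

lemma const_bound2 : Real.log 100 ^ 2 ≤ 64 * Real.log 2 ^ 2 := by
  have h1 := log_hundred_le
  have h0 := one_le_log_hundred
  have h2 := Real.log_two_gt_d9
  have h3 : Real.log 100 ^ 2 ≤ ((113 / 17) * Real.log 2) ^ 2 :=
    pow_le_pow_left₀ (by linarith) h1 2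
  nlinarith [sq_nonneg (Real.log 2)]

theorem specFin2 (h : SpecNum2) : SpecFin2 := by
  intro x0
  by_contra hne
  push Not at hne
  apply h
  refine ⟨max 1 (Nat.ceil x0), fun j hj => ?_⟩
  have hj1 : 1 ≤ j := le_trans (le_max_left _ _) hj
  have hj2 : x0 ≤ (j : ℝ) := by
    have : Nat.ceil x0 ≤ j := le_trans (le_max_right _ _) hj
    exact le_trans (Nat.le_ceil x0) (by exact_mod_cast this)
  have hbig : x0 ≤ ((100 ^ 2 ^ j : ℕ) : ℝ) := by
    have h1 : j < 2 ^ j := Nat.lt_two_pow_self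
    have h2 : 2 ^ j < 100 ^ 2 ^ j := Nat.lt_pow_self (by norm_num)
    have h3 : (j : ℝ) ≤ ((100 ^ 2 ^ j : ℕ) : ℝ) := by
      exact_mod_cast (by omega : j ≤ 100 ^ 2 ^ j)
    linarith
  have h1 := hne _ hbig
  rw [ncard_eq] at h1
  have hlog : Real.log ((100 ^ 2 ^ j : ℕ) : ℝ) = 2 ^ j * Real.log 100 := by
    push_cast
    rw [Real.log_pow]
    push_cast
    ring
  rw [hlog] at h1
  have hL := one_le_log_hundred
  have hl2 := Real.log_two_gt_d9
  have hll : (j : ℝ) * Real.log 2 ≤ Real.log (2 ^ j * Real.log 100) := by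
    rw [Real.log_mul (by positivity) (by linarith), Real.log_pow]
    have := Real.log_nonneg hL
    linarith
  have hjpos : (0 : ℝ) < j := by exact_mod_cast hj1
  have hjl : 0 < (j : ℝ) * Real.log 2 := by positivity
  have h2 : ((2 : ℝ) ^ j * Real.log 100) ^ 2 / (2 ^ 22 * Real.log (2 ^ j * Real.log 100) ^ 2)
      ≤ (2 ^ j * Real.log 100) ^ 2 / (2 ^ 22 * (j * Real.log 2) ^ 2) := by
    apply div_le_div_of_nonneg_left (by positivity) (by positivity)
    exact mul_le_mul_of_nonneg_left (pow_le_pow_left₀ hjl.le hll 2) (by positivity)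
  have h3 : (tc (100 ^ 2 ^ j) : ℝ) ≤ (2 ^ j * Real.log 100) ^ 2 / (2 ^ 22 * (j * Real.log 2) ^ 2) :=
    (lt_of_lt_of_le h1 h2).le
  rw [le_div_iff₀ (by positivity)] at h3
  have h4 : (2 : ℝ) ^ j * 2 ^ j = 4 ^ j := by
    rw [← mul_pow]; norm_num
  have h5 : (2 ^ 16 * (tc (100 ^ 2 ^ j) : ℝ) * j ^ 2) * (64 * Real.log 2 ^ 2)
      ≤ 4 ^ j * (64 * Real.log 2 ^ 2) := by
    calc (2 ^ 16 * (tc (100 ^ 2 ^ j) : ℝ) * j ^ 2) * (64 * Real.log 2 ^ 2)
        = tc (100 ^ 2 ^ j) * (2 ^ 22 * (j * Real.log 2) ^ 2) := by ring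
      _ ≤ (2 ^ j * Real.log 100) ^ 2 := h3
      _ = (2 ^ j * 2 ^ j) * Real.log 100 ^ 2 := by ring
      _ = 4 ^ j * Real.log 100 ^ 2 := by rw [h4]
      _ ≤ 4 ^ j * (64 * Real.log 2 ^ 2) :=
          mul_le_mul_of_nonneg_left const_bound2 (by positivity)
  have h6 : 2 ^ 16 * (tc (100 ^ 2 ^ j) : ℝ) * j ^ 2 ≤ 4 ^ j :=
    le_of_mul_le_mul_right h5 (by positivity)
  exact_mod_cast h6

end Pool.Agent.Lib.MP_f53aaa_nt.TW.FIN2M
end

section
/-! # MP_f53aaa_nt: the numerical contradiction (sharper form) -/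
set_option autoImplicit false

namespace Pool.Agent.Lib.MP_f53aaa_nt.TW.NUM2M

open Finset Classical

theorem TP_odd {p : ℕ} (hp : p ∈ TP) : p.Prime ∧ p ≠ 2 := by
  obtain ⟨h1, m, _, h2⟩ := hp
  refine ⟨h1, ?_⟩
  rintro rfl
  exact not_two m h2

/-- the primes of `TP` of level `≤ 2 ^ j` -/
noncomputable def S (j : ℕ) : Finset ℕ :=
  (range (100 ^ 2 ^ j + 1)).filter (fun p => p ∈ TP ∧ Lvl p (2 ^ j))

theorem not_lvl (sz : SpecSz) {p j : ℕ} (hj : 3 ≤ j) (hp : p ∈ TP) (h : p ∉ S j) :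
    ¬ Lvl p (2 ^ j) := by
  intro hL
  apply h
  unfold S
  rw [mem_filter, mem_range]
  have h2 : (5 : ℕ) ≤ 2 ^ j := by
    calc (5 : ℕ) ≤ 2 ^ 3 := by norm_num
      _ ≤ 2 ^ j := Nat.pow_le_pow_right (by norm_num) hj
  have := sz.1 p (2 ^ j) h2 hL
  exact ⟨by omega, hp, hL⟩

/-- `∑_{a ≤ j < b} 1 / (j + 1) ^ 2 ≤ 1 / a` -/
theorem sum_sq (a b : ℕ) (ha : 1 ≤ a) :
    ∑ j ∈ Ico a b, (1 : ℝ) / ((j : ℝ) + 1) ^ 2 ≤ 1 / (a : ℝ) := by
  have key : ∀ b, a ≤ b → ∑ j ∈ Ico a b, (1 : ℝ) / ((j : ℝ) + 1) ^ 2 ≤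
      1 / (a : ℝ) - 1 / (b : ℝ) := by
    intro b hb
    induction b, hb using Nat.le_induction with
    | base => simp
    | succ b hb ih =>
      rw [sum_Ico_succ_top hb]
      have hb0 : (0 : ℝ) < b := by exact_mod_cast (by omega : 0 < b)
      have h1 : (1 : ℝ) / ((b : ℝ) + 1) ^ 2 ≤ 1 / (b : ℝ) - 1 / ((b : ℝ) + 1) := by
        rw [div_sub_div _ _ hb0.ne' (by positivity), div_le_div_iff₀ (by positivity) (by positivity)]
        nlinarith
      push_cast
      linarith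
  rcases le_or_gt a b with h | h
  · refine (key b h).trans ?_
    have : (0 : ℝ) ≤ 1 / (b : ℝ) := by positivity
    linarith
  · rw [Ico_eq_empty (by omega)]
    simp

/-- the contradiction, for an arbitrary function `τ` -/
theorem num (τ : ℕ → ℕ) (j0 J c : ℕ) (h0 : 1 ≤ j0) (hJ : 4 * j0 + 8 ≤ J)
    (h : ∀ j ≥ j0, 2 ^ 16 * τ j * j ^ 2 ≤ 4 ^ j)
    (h1 : 3 * 2 ^ J * c ≤ 8 * (c * ∑ j ∈ Ico j0 (J / 4), τ (j + 1) *
        (2 * (2 ^ J / 4 ^ j + 1)) +
      ∑ j ∈ Ico (J / 4) J, τ (j + 1) * (2 * 4 ^ (J - j)) + 2 * τ J))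
    (hpi : 2 ^ J ≤ 4 * J * c) : False := by
  obtain ⟨R, hR⟩ : ∃ R : ℝ, R = 2 ^ J := ⟨_, rfl⟩
  have hRpos : 0 < R := by rw [hR]; positivity
  have hRR : (4 : ℝ) ^ J = R ^ 2 := by
    rw [hR, ← pow_mul, mul_comm, pow_mul]
    norm_num
  have hτ : ∀ j, j0 ≤ j → (τ j : ℝ) ≤ 4 ^ j / (2 ^ 16 * (j : ℝ) ^ 2) := by
    intro j hj
    have hj1 : 1 ≤ j := by omega
    have hj2 : (0 : ℝ) < j := by exact_mod_cast hj1
    have := h j hj
    rw [le_div_iff₀ (by positivity)]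
    have h2 : ((2 ^ 16 * τ j * j ^ 2 : ℕ) : ℝ) ≤ ((4 ^ j : ℕ) : ℝ) := by
      exact_mod_cast this
    push_cast at h2
    linarith
  have hfirst : ∑ j ∈ Ico j0 (J / 4), (τ (j + 1) : ℝ) * (2 * (((2 ^ J / 4 ^ j : ℕ) : ℝ) + 1))
      ≤ R / 2 ^ 12 := by
    have e1 : ∀ j ∈ Ico j0 (J / 4),
        (τ (j + 1) : ℝ) * (2 * (((2 ^ J / 4 ^ j : ℕ) : ℝ) + 1)) ≤
        R / 2 ^ 12 * (1 / ((j : ℝ) + 1) ^ 2) := by
      intro j hj
      rw [mem_Ico] at hj
      have h2 := hτ (j + 1) (by omega)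
      have h3 : (((2 ^ J / 4 ^ j : ℕ)) : ℝ) ≤ R / 4 ^ j := by
        refine (Nat.cast_div_le).trans (le_of_eq ?_)
        rw [hR]
        push_cast
        rfl
      have h4 : (4 : ℝ) ^ j ≤ R := by
        have : (4 : ℝ) ^ j = 2 ^ (2 * j) := by
          rw [pow_mul]
          norm_num
        rw [this, hR]
        exact pow_le_pow_right₀ (by norm_num) (by omega)
      have h5 : (1 : ℝ) ≤ R / 4 ^ j := by
        rw [le_div_iff₀ (by positivity)]
        linarith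
      push_cast at h2
      calc (τ (j + 1) : ℝ) * (2 * (((2 ^ J / 4 ^ j : ℕ) : ℝ) + 1))
          ≤ (4 ^ (j + 1) / (2 ^ 16 * ((j : ℝ) + 1) ^ 2)) * (2 * (R / 4 ^ j + R / 4 ^ j)) := by
            refine mul_le_mul h2 ?_ (by positivity) (by positivity)
            linarith
        _ = R / 2 ^ 12 * (1 / ((j : ℝ) + 1) ^ 2) := by
            rw [pow_succ]
            field_simp
            norm_num
    refine (sum_le_sum e1).trans ?_
    rw [← mul_sum]
    have h6 := sum_sq j0 (J / 4) (by omega)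
    have h7 : (1 : ℝ) / j0 ≤ 1 := by
      rw [div_le_one (by exact_mod_cast (by omega : 0 < j0))]
      exact_mod_cast (by omega : 1 ≤ j0)
    have : R / 2 ^ 12 * ∑ j ∈ Ico j0 (J / 4), 1 / ((j : ℝ) + 1) ^ 2 ≤ R / 2 ^ 12 * 1 :=
      mul_le_mul_of_nonneg_left (h6.trans h7) (by positivity)
    linarith
  have hsecond : ∑ j ∈ Ico (J / 4) J, (τ (j + 1) : ℝ) * (2 * 4 ^ (J - j))
      ≤ R ^ 2 / 2 ^ 13 * (8 / J) := by
    have e1 : ∀ j ∈ Ico (J / 4) J,
        (τ (j + 1) : ℝ) * (2 * 4 ^ (J - j)) ≤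
        R ^ 2 / 2 ^ 13 * (1 / ((j : ℝ) + 1) ^ 2) := by
      intro j hj
      rw [mem_Ico] at hj
      have h2 := hτ (j + 1) (by omega)
      have h3 : (4 : ℝ) ^ (j + 1) * 4 ^ (J - j) = 4 * R ^ 2 := by
        rw [← hRR, ← pow_add, ← pow_succ']
        congr 1
        omega
      push_cast at h2
      calc (τ (j + 1) : ℝ) * (2 * 4 ^ (J - j))
          ≤ (4 ^ (j + 1) / (2 ^ 16 * ((j : ℝ) + 1) ^ 2)) * (2 * 4 ^ (J - j)) :=
            mul_le_mul_of_nonneg_right h2 (by positivity)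
        _ = (4 ^ (j + 1) * 4 ^ (J - j)) * (2 / (2 ^ 16 * ((j : ℝ) + 1) ^ 2)) := by ring
        _ = R ^ 2 / 2 ^ 13 * (1 / ((j : ℝ) + 1) ^ 2) := by
            rw [h3]
            field_simp
            norm_num
    refine (sum_le_sum e1).trans ?_
    rw [← mul_sum]
    have h6 := sum_sq (J / 4) J (by omega)
    refine mul_le_mul_of_nonneg_left (h6.trans ?_) (by positivity)
    have h8 : (0 : ℝ) < ((J / 4 : ℕ) : ℝ) := by exact_mod_cast (by omega : 0 < J / 4)
    have h9 : (0 : ℝ) < (J : ℝ) := by exact_mod_cast (by omega : 0 < J)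
    rw [div_le_div_iff₀ h8 h9]
    have : J ≤ 8 * (J / 4) := by omega
    have : (J : ℝ) ≤ 8 * ((J / 4 : ℕ) : ℝ) := by exact_mod_cast this
    linarith
  have hthird : (τ J : ℝ) ≤ R ^ 2 / (2 ^ 16 * (J : ℝ) ^ 2) := by
    have := hτ J (by omega)
    rw [hRR] at this
    exact this
  have hmain : 3 * R * (c : ℝ) ≤ 8 * ((c : ℝ) * (R / 2 ^ 12) +
      R ^ 2 / 2 ^ 13 * (8 / J) + 2 * (R ^ 2 / (2 ^ 16 * (J : ℝ) ^ 2))) := by
    have h2 : 3 * R * (c : ℝ) ≤ 8 * ((c : ℝ) *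
        ∑ j ∈ Ico j0 (J / 4), (τ (j + 1) : ℝ) * (2 * (((2 ^ J / 4 ^ j : ℕ) : ℝ) + 1)) +
      ∑ j ∈ Ico (J / 4) J, (τ (j + 1) : ℝ) * (2 * 4 ^ (J - j)) + 2 * (τ J : ℝ)) := by
      rw [hR]
      exact_mod_cast h1
    refine h2.trans ?_
    have h5 : (0 : ℝ) ≤ c := by positivity
    have h6 := mul_le_mul_of_nonneg_left hfirst h5
    linarith
  have hP2 : R ≤ 4 * J * (c : ℝ) := by
    rw [hR]
    exact_mod_cast hpi
  have hJ1 : (8 : ℝ) ≤ J := by exact_mod_cast (by omega : 8 ≤ J)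
  obtain ⟨x, hx⟩ : ∃ x : ℝ, x = (c : ℝ) := ⟨_, rfl⟩
  have hx0 : 0 ≤ x := by rw [hx]; positivity
  rw [← hx] at hmain hP2
  have hfin : 3 * R * x * J ≤ 8 * (x * (R / 2 ^ 12) * J + R ^ 2 / 2 ^ 10 +
      2 * (R ^ 2 / (2 ^ 16 * (J : ℝ)))) := by
    have h2 := mul_le_mul_of_nonneg_right hmain (by positivity : (0 : ℝ) ≤ J)
    have h3 : 8 * (x * (R / 2 ^ 12) + R ^ 2 / 2 ^ 13 * (8 / J) +
        2 * (R ^ 2 / (2 ^ 16 * (J : ℝ) ^ 2))) * J =
        8 * (x * (R / 2 ^ 12) * J + R ^ 2 / 2 ^ 10 + 2 * (R ^ 2 / (2 ^ 16 * (J : ℝ)))) := by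
      field_simp
      ring
    rw [h3] at h2
    exact h2
  have h10 : R ^ 2 / (2 ^ 16 * (J : ℝ)) ≤ R ^ 2 / 2 ^ 16 := by
    refine div_le_div_of_nonneg_left (by positivity) (by positivity) ?_
    nlinarith
  have h11 : R * R ≤ 4 * J * x * R := mul_le_mul_of_nonneg_right hP2 hRpos.le
  have h12 : 0 < R * R := by positivity
  have h13 : 0 ≤ J * x * R := by positivity
  nlinarith

theorem specNum2 (gd : SpecGd) (asm : SpecAsm) (pi : SpecPi) (sz : SpecSz) : SpecNum2 := by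
  rintro ⟨i0, h⟩
  obtain ⟨j0, hj0⟩ : ∃ j0, j0 = max i0 3 := ⟨_, rfl⟩
  obtain ⟨l0, hl0⟩ := gd (S j0) (fun p hp => by
    unfold S at hp
    rw [mem_filter] at hp
    exact TP_odd hp.2.1)
  obtain ⟨J0, hJ0⟩ := pi (max l0 3)
  obtain ⟨J, hJ⟩ : ∃ J, J = J0 + l0 + 4 * j0 + 8 := ⟨_, rfl⟩
  have hpi := hJ0 J (by omega)
  obtain ⟨P, hP⟩ : ∃ P, P = (range (2 ^ J)).filter (fun l => l.Prime ∧ max l0 3 ≤ l) := ⟨_, rfl⟩
  have hlR : l0 ≤ 2 ^ J := by
    have : J < 2 ^ J := Nat.lt_two_pow_self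
    omega
  have hj3 : 3 ≤ j0 := by rw [hj0]; exact le_max_right _ _
  have h1 := asm j0 (J / 4) J P hj3 (by omega) (by omega)
    (fun l hl => by
      rw [hP, mem_filter, mem_range] at hl
      refine ⟨?_, hl.1⟩
      have : 3 ≤ l := le_trans (le_max_right _ _) hl.2.2
      exact hl.2.1.odd_of_ne_two (by omega))
    (fun l hl => by
      rw [hP, mem_filter, mem_range] at hl
      refine (hl0 l (2 ^ J) hl.2.1 (le_trans (le_max_left _ _) hl.2.2) hlR).trans ?_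
      refine Nat.mul_le_mul_left _ (card_le_card ?_)
      intro n hn
      rw [mem_filter] at hn ⊢
      obtain ⟨hn1, hn2, p, hp, hpS, hd⟩ := hn
      exact ⟨hn1, hn2, p, hp, not_lvl sz hj3 hp hpS, hd⟩)
  refine num (fun j => tc (100 ^ 2 ^ j)) j0 J P.card (by omega) (by omega) ?_ h1 ?_
  · intro j hj
    exact h j (le_trans (by rw [hj0]; exact le_max_left _ _) hj)
  · rw [hP]
    convert hpi

end Pool.Agent.Lib.MP_f53aaa_nt.TW.NUM2M
end
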