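import Pool.Agent.Lib.MP_f53aaa_nt.TW.Spec
import Pool.Agent.Lib.MP_f53aaa_nt.TW.NUM2

section
/-!
# MP_f53aaa_nt: module GD
-/
set_option autoImplicit false

namespace Pool.Agent.Lib.MP_f53aaa_nt.TW.GDM

open Finset

theorem card_odd (R : ℕ) : ((range R).filter (fun n => Odd n)).card = R / 2 := by
  induction R with
  | zero => rfl
  | succ R ih =>
    rw [range_add_one, filter_insert]
    split_ifs with h
    · rw [card_insert_of_notMem (by simp), ih]
      have := Nat.odd_iff.1 h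
      omega
    · rw [ih]
      have := Nat.not_odd_iff.1 h
      omega

theorem specGd (hPrt : SpecPrt) (hCc : SpecCc) : SpecGd := by
  classical
  intro S hS
  obtain ⟨l1, h1⟩ := hCc S hS
  refine ⟨max l1 8, fun l R hl h2 h3 => ?_⟩
  have hl1 : l1 ≤ l := (le_max_left _ _).trans h2
  have hR1 : l1 ≤ R := (le_max_left _ _).trans h3
  have hR8 : 8 ≤ R := (le_max_right _ _).trans h3
  have hl8 : 8 ≤ l := (le_max_right _ _).trans h2
  have hodd : Odd l := hl.odd_of_ne_two (by omega)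
  have h4 := h1 l R hl hl1 hR1
  have h5 := card_odd R
  have h6 : (range R).filter (fun n => Odd n) ⊆
      (range R).filter (fun n => gS S l n ≡ val n [MOD l]) ∪
        (range R).filter (fun n => Odd n ∧ ∃ p ∈ TP, p ∉ S ∧ p ∣ W l n) := by
    intro n hn
    obtain ⟨hn1, hn2⟩ := mem_filter.1 hn
    rw [mem_union, mem_filter, mem_filter]
    by_cases h : ∃ p ∈ TP, p ∉ S ∧ p ∣ W l n
    · exact Or.inr ⟨hn1, hn2, h⟩
    · refine Or.inl ⟨hn1, hPrt S l n (fun p hp => (hS p hp).1) hl hodd hn2 fun p hp hd => ?_⟩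
      by_contra hpS
      exact h ⟨p, hp, hpS, hd⟩
  have h7 := (card_le_card h6).trans (card_union_le _ _)
  omega

end Pool.Agent.Lib.MP_f53aaa_nt.TW.GDM
end

section
/-! Module PI (helper62): many primes below `2 ^ J`. -/
set_option autoImplicit false

namespace Pool.Agent.Lib.MP_f53aaa_nt.TW.PIM

open Finset

theorem sq_le_two_pow (J : ℕ) (hJ : 4 ≤ J) : J * J ≤ 2 ^ J := by
  induction J, hJ using Nat.le_induction with
  | base => norm_num
  | succ J hJ ih =>
    rw [pow_succ]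
    nlinarith

theorem pi_lower (J : ℕ) (hJ : 4 ≤ J) :
    2 ^ J ≤ ((range (2 ^ J)).filter Nat.Prime).card * J + J + 1 := by
  have h1 := Chebyshev.pi_ge (2 ^ J - 1)
  have h2 : Nat.primeCounting (2 ^ J - 1) = ((range (2 ^ J)).filter Nat.Prime).card := by
    unfold Nat.primeCounting Nat.primeCounting'
    rw [Nat.count_eq_card_filter_range]
    congr 2
    have : 0 < 2 ^ J := by positivity
    congr 1
    omega
  rw [h2] at h1
  have h3 := sq_le_two_pow J hJ
  have h16 : 16 ≤ 2 ^ J := by nlinarith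
  have hc : ((2 ^ J - 1 : ℕ) : ℝ) = 2 ^ J - 1 := by
    rw [Nat.cast_sub (by omega)]
    push_cast
    ring
  have h16' : (16 : ℝ) ≤ 2 ^ J := by exact_mod_cast h16
  rw [hc] at h1
  have hlog2 : 0 < Real.log 2 := Real.log_pos (by norm_num)
  have hlogn : 0 < Real.log (2 ^ J - 1) := Real.log_pos (by linarith)
  have hlogle : Real.log (2 ^ J - 1) ≤ J * Real.log 2 := by
    rw [← Real.log_pow]
    exact Real.log_le_log (by linarith) (by linarith)
  have e1 : (2 : ℝ) ^ J - 1 + 1 = 2 ^ J := by ring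
  rw [e1, Real.log_pow, div_le_iff₀ hlogn] at h1
  have h4 : ((((range (2 ^ J)).filter Nat.Prime).card : ℕ) : ℝ) * Real.log (2 ^ J - 1) ≤
      ((((range (2 ^ J)).filter Nat.Prime).card : ℕ) : ℝ) * (J * Real.log 2) :=
    mul_le_mul_of_nonneg_left hlogle (by positivity)
  have h5 : ((2 : ℝ) ^ J - 1 - J) * Real.log 2 ≤
      (((((range (2 ^ J)).filter Nat.Prime).card : ℕ) : ℝ) * J) * Real.log 2 := by
    linarith
  have h6 := le_of_mul_le_mul_right h5 hlog2
  have h7 : (2 : ℝ) ^ J ≤ ((((range (2 ^ J)).filter Nat.Prime).card : ℕ) : ℝ) * J + J + 1 := by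
    linarith
  exact_mod_cast h7

theorem specPi : SpecPi := by
  classical
  intro L
  refine ⟨4 * L + 16, fun J hJ => ?_⟩
  have h1 := pi_lower J (by omega)
  have h2 := sq_le_two_pow J (by omega)
  have h3 : ((range (2 ^ J)).filter Nat.Prime).card ≤
      ((range (2 ^ J)).filter (fun l => l.Prime ∧ L ≤ l)).card + L := by
    have hsub : (range (2 ^ J)).filter Nat.Prime ⊆
        ((range (2 ^ J)).filter (fun l => l.Prime ∧ L ≤ l)) ∪ range L := by
      intro x hx
      simp only [mem_filter, mem_range, mem_union] at hx ⊢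
      by_cases h : L ≤ x
      · left
        exact ⟨hx.1, hx.2, h⟩
      · right
        omega
    refine (card_le_card hsub).trans ((card_union_le _ _).trans ?_)
    rw [card_range]
  generalize ((range (2 ^ J)).filter Nat.Prime).card = A at *
  generalize ((range (2 ^ J)).filter (fun l => l.Prime ∧ L ≤ l)).card = B at *
  generalize 2 ^ J = T at *
  have h4 : (4 * L + 16) * J ≤ J * J := Nat.mul_le_mul_right J hJ
  have h5 : A * J ≤ (B + L) * J := Nat.mul_le_mul_right J h3
  nlinarith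

end Pool.Agent.Lib.MP_f53aaa_nt.TW.PIM
end

section
/-!
# Module PRT: the `S`-part of `W l n` is `val n` modulo `l`
-/
set_option autoImplicit false

namespace Pool.Agent.Lib.MP_f53aaa_nt.TW.PRTM

open Finset

theorem pell_double (n : ℕ) : (pell (2 * n)).1 = (pell n).1 ^ 2 + 8 * (pell n).2 ^ 2 ∧
    (pell (2 * n)).2 = 2 * (pell n).1 * (pell n).2 := by
  induction n with
  | zero => simp [pell]
  | succ m ih =>
    have e : 2 * (m + 1) = 2 * m + 1 + 1 := by ring
    obtain ⟨h1, h2⟩ := ih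
    rw [e]
    simp only [pell, h1, h2]
    constructor <;> ring

theorem val_pell (n : ℕ) : val n = 4 * (pell (2 * n)).1 + 5 := by
  have h := pell_eq n
  unfold val
  rw [(pell_double n).1]
  omega

theorem W_modEq (l n : ℕ) (hl : l.Prime) : W l n ≡ val n [MOD l] := by
  have : Fact l.Prime := ⟨hl⟩
  have h4 : 4 ^ l ≡ 4 [MOD l] := by
    rw [← ZMod.natCast_eq_natCast_iff]
    push_cast
    exact ZMod.pow_card _
  have h2 : 2 ^ l ≡ 2 [MOD l] := by
    rw [← ZMod.natCast_eq_natCast_iff]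
    push_cast
    exact ZMod.pow_card _
  have h : W l n ≡ 4 + 1 + 2 * (2 * (pell (2 * n)).1) [MOD l] :=
    Nat.ModEq.add (Nat.ModEq.add_right 1 h4) (Nat.ModEq.mul_right _ h2)
  rw [val_pell]
  have e : 4 * (pell (2 * n)).1 + 5 = 4 + 1 + 2 * (2 * (pell (2 * n)).1) := by ring
  rw [e]
  exact h

theorem W_pos (l n : ℕ) : W l n ≠ 0 := by
  unfold W
  positivity

theorem prod_modEq_one (l : ℕ) (g : ℕ → ℕ) (s : Finset ℕ) (h : ∀ p ∈ s, g p ≡ 1 [MOD l]) :
    ∏ p ∈ s, g p ≡ 1 [MOD l] := by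
  induction s using Finset.induction_on with
  | empty => simp only [Finset.prod_empty]; exact Nat.ModEq.refl 1
  | insert a s ha ih =>
    rw [Finset.prod_insert ha]
    have h7 := (h a (mem_insert_self a s)).mul
      (ih fun p hp => h p (mem_insert_of_mem hp))
    rwa [one_mul] at h7

theorem gS_modEq (hT : SpecTrk) (S : Finset ℕ) (l n : ℕ) (hS : ∀ p ∈ S, p.Prime) (hl : l.Prime)
    (hlo : Odd l) (hn : Odd n) (h : ∀ p ∈ TP, p ∣ W l n → p ∈ S) : W l n ≡ gS S l n [MOD l] := by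
  classical
  set U := (W l n).primeFactors with hU
  have h1 : W l n = ∏ p ∈ U ∪ S, p ^ padicValNat p (W l n) := by
    have h2 : ∏ p ∈ U, p ^ padicValNat p (W l n) = W l n := by
      have h3 := Nat.prod_factorization_pow_eq_self (W_pos l n)
      rw [Finsupp.prod, Nat.support_factorization] at h3
      rw [← hU] at h3
      refine Eq.trans (Finset.prod_congr rfl fun p hp => ?_) h3
      rw [Nat.factorization_def _ (Nat.prime_of_mem_primeFactors hp)]
    conv_lhs => rw [← h2]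
    refine Finset.prod_subset subset_union_left fun p hp hp' => ?_
    have hpS : p ∈ S := by
      rcases mem_union.1 hp with h4 | h4
      · exact absurd h4 hp'
      · exact h4
    have h5 : ¬ p ∣ W l n := fun h6 =>
      hp' (Nat.mem_primeFactors.2 ⟨hS p hpS, h6, W_pos l n⟩)
    rw [padicValNat.eq_zero_of_not_dvd h5, pow_zero]
  have h2 : U ∪ S = (U \ S) ∪ S := by
    rw [Finset.sdiff_union_self_eq_union]
  rw [h2, Finset.prod_union Finset.sdiff_disjoint] at h1
  have h3 : ∏ p ∈ U \ S, p ^ padicValNat p (W l n) ≡ 1 [MOD l] := by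
    have h4 : ∀ p ∈ U \ S, p ^ padicValNat p (W l n) ≡ 1 [MOD l] := by
      intro p hp
      obtain ⟨hpU, hpS⟩ := mem_sdiff.1 hp
      have hpp := Nat.prime_of_mem_primeFactors hpU
      have hpd := Nat.dvd_of_mem_primeFactors hpU
      have h5 : p ≡ 1 [MOD l] := by
        by_contra hc
        exact hpS (h p (hT l n p hl hlo hn hpp hpd hc) hpd)
      have h6 := h5.pow (padicValNat p (W l n))
      rwa [one_pow] at h6
    exact prod_modEq_one l _ _ h4
  conv_lhs => rw [h1]
  have h8 := h3.mul_right (∏ p ∈ S, p ^ padicValNat p (W l n))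
  rw [one_mul] at h8
  exact h8

/-- **PRT**. -/
theorem specPrt (hT : SpecTrk) : SpecPrt := by
  intro S l n hS hl hlo hn h
  exact (gS_modEq hT S l n hS hl hlo hn h).symm.trans (W_modEq l n hl)

end Pool.Agent.Lib.MP_f53aaa_nt.TW.PRTM
end

section
/-!
# MP_f53aaa_nt, hive TW, module SZ: sizes
-/
set_option autoImplicit false

namespace Pool.Agent.Lib.MP_f53aaa_nt.TW.SZM

open Finset

theorem four_mul (H : ℕ) (hH : 5 ≤ H) : 4 * 72 ^ H ≤ 100 ^ H := by
  induction H, hH using Nat.le_induction with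
  | base => norm_num
  | succ H _ ih =>
    rw [pow_succ, pow_succ]
    omega

theorem specSz : SpecSz := by
  refine ⟨?_, ?_⟩
  · rintro p H hH ⟨a, b, ha, hb, hab, hdvd⟩
    have h0 := Prim.E_ne a b hab
    have h1 := Prim.E_le H a b ha hb
    have h2 : p ∣ (Prim.E a b).natAbs := Int.natCast_dvd.1 hdvd
    have h3 := Nat.le_of_dvd (Int.natAbs_pos.2 h0) h2
    exact (h3.trans h1).trans (four_mul H hH)
  · intro l n R hR hl hn
    refine le_trans ?_ (four_mul R hR)
    unfold W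
    have h1 : 4 ^ l ≤ 72 ^ R :=
      (Nat.pow_le_pow_right (by norm_num) hl.le).trans (Nat.pow_le_pow_left (by norm_num) R)
    have h2 : 1 ≤ 72 ^ R := Nat.one_le_pow _ _ (by norm_num)
    have h3 : (pell (2 * n)).1 ≤ 36 ^ R := by
      refine (Prim.pell_le (2 * n)).trans ?_
      rw [pow_mul]
      exact Nat.pow_le_pow_right (by norm_num) hn.le
    have h4 : 2 ^ l ≤ 2 ^ R := Nat.pow_le_pow_right (by norm_num) hl.le
    have h5 : 2 ^ l * (2 * (pell (2 * n)).1) ≤ 2 * 72 ^ R := by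
      calc 2 ^ l * (2 * (pell (2 * n)).1) ≤ 2 ^ R * (2 * 36 ^ R) :=
            Nat.mul_le_mul h4 (Nat.mul_le_mul_left 2 h3)
        _ = 2 * (2 * 36) ^ R := by rw [mul_pow]; ring
        _ = 2 * 72 ^ R := by norm_num
    omega

end Pool.Agent.Lib.MP_f53aaa_nt.TW.SZM
end

section
/-! Module TRK: a prime factor of `W l n` which is not `1` modulo `l` divides some `val m`. -/
set_option autoImplicit false

namespace Pool.Agent.Lib.MP_f53aaa_nt.TW.TRKM

open Finset

theorem pell_mod (k : ℕ) : (pell (4 * k)).1 % 3 = 1 ∧ (pell (4 * k)).2 % 3 = 0 := by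
  induction k with
  | zero => simp [pell]
  | succ k ih =>
    obtain ⟨h1, h2⟩ := ih
    rw [show 4 * (k + 1) = 4 * k + 1 + 1 + 1 + 1 by ring]
    simp only [pell]
    constructor <;> omega

theorem four_mod (j : ℕ) : 4 ^ j % 3 = 1 := by
  rw [Nat.pow_mod]
  norm_num

theorem two_mod (l : ℕ) (hl : Odd l) : 2 ^ l % 3 = 2 := by
  obtain ⟨j, rfl⟩ := hl
  rw [pow_succ, pow_mul]
  have := four_mod j
  norm_num
  omega

theorem W_mod_three (l n : ℕ) (hl : Odd l) (hn : Odd n) : W l n % 3 = 1 := by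
  obtain ⟨k, rfl⟩ := hn
  have h1 := pell_mod k
  have h2 : (pell (2 * (2 * k + 1))).1 % 3 = 2 := by
    rw [show 2 * (2 * k + 1) = 4 * k + 1 + 1 by ring]
    simp only [pell]
    omega
  have h3 := four_mod l
  have h4 := two_mod l hl
  unfold W
  have h5 : 2 ^ l * (2 * (pell (2 * (2 * k + 1))).1) % 3 = 2 := by
    rw [Nat.mul_mod, h4]
    omega
  omega

theorem W_odd (l n : ℕ) (hl : Odd l) : W l n % 2 = 1 := by
  obtain ⟨j, rfl⟩ := hl
  unfold W
  rw [pow_succ, pow_succ]
  have e1 : 4 ^ (2 * j) * 4 = 2 * (2 * 4 ^ (2 * j)) := by ring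
  have e2 : 2 ^ (2 * j) * 2 * (2 * (pell (2 * n)).1) = 2 * (2 ^ (2 * j) * (2 * (pell (2 * n)).1)) := by
    ring
  rw [e1, e2]
  omega

theorem key {F : Type*} [Field F] (p : ℕ) [hp : Fact p.Prime] [CharP F p] (s : F) (hs : s ^ 2 = 2)
    (l n : ℕ) (hl : l.Prime) (hno : Odd n) (h2 : p ≠ 2) (h3 : p ≠ 3)
    (hl1 : ¬ (p ≡ 1 [MOD l])) (hx : (-2 : F) ^ l * ((1 + s) ^ 4) ^ n = 1) :
    ∃ m, Odd m ∧ p ∣ val m := by
  have hpp : p.Prime := hp.out
  have hp5 : 4 < p := by
    have := hpp.two_le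
    rcases Nat.lt_or_ge 4 p with h | h
    · exact h
    · interval_cases p
      · exact absurd rfl h2
      · exact absurd rfl h3
      · exact absurd hpp (by norm_num)
  have hpo : p % 2 = 1 := by
    rcases hpp.eq_two_or_odd with h | h
    · exact absurd h h2
    · exact h
  set x : F := (1 + s) ^ 4 with hxd
  set y : F := (1 - s) ^ 4 with hyd
  have hxy : x * y = 1 := by
    rw [hxd, hyd, ← mul_pow]
    have : (1 + s) * (1 - s) = -1 := by linear_combination -hs
    rw [this]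
    norm_num
  -- Fermat
  have hcast2 : (2 : F) ≠ 0 := by
    intro h
    have h' : ((2 : ℕ) : F) = 0 := by exact_mod_cast h
    have := (CharP.cast_eq_zero_iff F p 2).1 h'
    exact h2 ((Nat.prime_dvd_prime_iff_eq hpp Nat.prime_two).1 this)
  have htwo : (2 : F) ^ p = 2 := by
    have := map_ofNat (frobenius F p) 2
    rwa [frobenius_def] at this
  have hneg : (-2 : F) ^ p = -2 := by
    rw [Odd.neg_pow (Nat.odd_iff.2 hpo), htwo]
  have hu : (-2 : F) ^ (p - 1) = 1 := by
    have h5 : (-2 : F) ^ (p - 1) * (-2) = 1 * (-2) := by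
      rw [← pow_succ, show p - 1 + 1 = p by omega, hneg, one_mul]
    exact mul_right_cancel₀ (neg_ne_zero.2 hcast2) h5
  have hcop : Nat.Coprime l (p - 1) := by
    rw [hl.coprime_iff_not_dvd]
    intro h
    apply hl1
    exact ((Nat.modEq_iff_dvd' (by omega)).2 h).symm
  have hsp : s ^ p = s ∨ s ^ p = -s := by
    rw [← sq_eq_sq_iff_eq_or_eq_neg, ← pow_mul, mul_comm, pow_mul, hs, htwo]
  have hxp : x ^ p = (1 + s ^ p) ^ 4 := by
    rw [hxd, ← pow_mul, mul_comm, pow_mul, add_pow_char, one_pow]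
  rcases hsp with h | h
  · -- `x ^ (p - 1) = 1`
    rw [h, ← hxd] at hxp
    obtain ⟨k, hk⟩ := Nat.exists_mul_mod_eq_one_of_coprime hcop (by omega)
    have hk2 : l * k = (p - 1) * (l * k / (p - 1)) + 1 := by
      have := Nat.div_add_mod (l * k) (p - 1)
      omega
    have hko : Odd k := by
      have h6 : Odd (l * k) := by
        rw [hk2]
        refine Even.add_one ?_
        apply Even.mul_right
        rw [Nat.even_iff]
        omega
      exact (Nat.odd_mul.1 h6).2
    have h7 : (-2 : F) * x ^ (n * k) = 1 := by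
      have h8 : ((-2 : F) ^ l * x ^ n) ^ k = 1 := by rw [hx, one_pow]
      rw [mul_pow, ← pow_mul, ← pow_mul, hk2, pow_add, pow_mul, hu, one_pow, one_mul, pow_one] at h8
      exact h8
    have h9 : x ^ (n * k * (p - 2)) = -2 := by
      have h10 : ((-2 : F) * x ^ (n * k)) ^ (p - 2) = 1 := by rw [h7, one_pow]
      rw [mul_pow, ← pow_mul] at h10
      calc x ^ (n * k * (p - 2)) = (-2 : F) ^ (p - 1) * x ^ (n * k * (p - 2)) := by
            rw [hu, one_mul]
        _ = (-2) * ((-2 : F) ^ (p - 2) * x ^ (n * k * (p - 2))) := by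
            rw [show p - 1 = p - 2 + 1 by omega, pow_succ]
            ring
        _ = -2 := by rw [h10, mul_one]
    refine ⟨n * k * (p - 2), ?_, ?_⟩
    · refine Odd.mul (Odd.mul hno hko) ?_
      rw [Nat.odd_iff]
      omega
    · set m := n * k * (p - 2) with hm
      rw [← CharP.cast_eq_zero_iff F p]
      have h11 := (Prim.pell_cast s hs m).1
      have h12 : (1 + s) ^ (2 * m) * (1 + s) ^ (2 * m) = x ^ m := by
        rw [← pow_add, hxd, ← pow_mul]
        congr 1
        ring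
      have h13 : (1 - s) ^ (2 * m) * (1 - s) ^ (2 * m) = y ^ m := by
        rw [← pow_add, hyd, ← pow_mul]
        congr 1
        ring
      have h14 : (1 + s) ^ (2 * m) * (1 - s) ^ (2 * m) = 1 := by
        rw [← mul_pow]
        have : (1 + s) * (1 - s) = -1 := by linear_combination -hs
        rw [this, pow_mul]
        norm_num
      have h15 : x ^ m * y ^ m = 1 := by rw [← mul_pow, hxy, one_pow]
      unfold val
      push_cast
      set X := (1 + s) ^ (2 * m)
      set Y := (1 - s) ^ (2 * m)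
      set d := ((pell m).1 : F)
      rw [h9] at h12 h15
      -- `2 d = X + Y`, `X X = -2`, `Y Y = y ^ m`, `X Y = 1`, `-2 y ^ m = 1`
      have h16 : 8 * d ^ 2 = 2 * (X * X + 2 * (X * Y) + Y * Y) := by
        have : 8 * d ^ 2 = 2 * (2 * d) ^ 2 := by ring
        rw [this, h11]
        ring
      rw [h16, h12, h13, h14]
      linear_combination -h15
  · -- `x ^ (p + 1) = 1`
    exfalso
    have h4 : x ^ p = y := by
      rw [hxp, h, hyd]
      ring
    have h5 : x ^ (p + 1) = 1 := by rw [pow_succ, h4, mul_comm, hxy]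
    have h6 : (-2 : F) ^ (2 * l) = 1 := by
      have h7 : ((-2 : F) ^ l * x ^ n) ^ (p + 1) = 1 := by rw [hx, one_pow]
      rw [mul_pow, ← pow_mul, ← pow_mul, mul_comm n, pow_mul x, h5, one_pow, mul_one] at h7
      have h8 : l * (p + 1) = (p - 1) * l + 2 * l := by
        obtain ⟨q, rfl⟩ : ∃ q, p = q + 1 := ⟨p - 1, by omega⟩
        simp only [Nat.add_sub_cancel]
        ring
      rw [h8, pow_add, pow_mul, hu, one_pow, one_mul] at h7
      exact h7
    have h7 : ((4 : F)) ^ l = 1 := by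
      rw [pow_mul] at h6
      norm_num at h6
      exact h6
    have h8 : (4 : F) ^ (p - 1) = 1 := by
      have : (4 : F) = (-2) ^ 2 := by norm_num
      rw [this, ← pow_mul, mul_comm, pow_mul, hu, one_pow]
    have h9 : orderOf (4 : F) ∣ Nat.gcd l (p - 1) :=
      Nat.dvd_gcd (orderOf_dvd_of_pow_eq_one h7) (orderOf_dvd_of_pow_eq_one h8)
    rw [hcop.gcd_eq_one, Nat.dvd_one, orderOf_eq_one_iff] at h9
    have h10 : ((3 : ℕ) : F) = 0 := by
      push_cast
      linear_combination h9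
    have h11 := (CharP.cast_eq_zero_iff F p 3).1 h10
    exact h3 ((Nat.prime_dvd_prime_iff_eq hpp Nat.prime_three).1 h11)

theorem main {F : Type*} [Field F] [IsAlgClosed F] (p : ℕ) [hp : Fact p.Prime] [CharP F p]
    (l n : ℕ) (hl : l.Prime) (hlo : Odd l) (hno : Odd n) (hpW : p ∣ W l n)
    (hl1 : ¬ (p ≡ 1 [MOD l])) : ∃ m, Odd m ∧ p ∣ val m := by
  have h2 : p ≠ 2 := by
    rintro rfl
    have := W_odd l n hlo
    omega
  have h3 : p ≠ 3 := by
    rintro rfl
    have := W_mod_three l n hlo hno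
    omega
  obtain ⟨s, hs⟩ := IsAlgClosed.exists_pow_nat_eq (2 : F) (n := 2) (by norm_num)
  have h4 : ((W l n : ℕ) : F) = 0 := (CharP.cast_eq_zero_iff F p _).2 hpW
  have hxy : (1 + s) * (1 - s) = -1 := by linear_combination -hs
  have h5 := (Prim.pell_cast s hs (2 * n)).1
  have e1 : (1 + s) ^ (2 * (2 * n)) = ((1 + s) ^ 4) ^ n := by
    rw [← pow_mul]
    congr 1
    ring
  have e2 : (1 - s) ^ (2 * (2 * n)) = ((1 - s) ^ 4) ^ n := by
    rw [← pow_mul]
    congr 1
    ring
  rw [e1, e2] at h5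
  have e3 : ((1 + s) ^ 4) ^ n * ((1 - s) ^ 4) ^ n = 1 := by
    rw [← mul_pow, ← mul_pow, hxy]
    norm_num
  have e4 : (-2 : F) ^ l = -2 ^ l := Odd.neg_pow hlo 2
  have e5 : (4 : F) ^ l = 2 ^ l * 2 ^ l := by
    rw [← mul_pow]
    norm_num
  have h6 : ((-2 : F) ^ l * ((1 + s) ^ 4) ^ n - 1) * ((-2 : F) ^ l * ((1 - s) ^ 4) ^ n - 1) = 0 := by
    rw [← h4]
    unfold W
    push_cast
    rw [h5, e4, e5]
    linear_combination (2 ^ l * 2 ^ l) * e3
  rcases mul_eq_zero.1 h6 with h | h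
  · exact key p s hs l n hl hno h2 h3 hl1 (sub_eq_zero.1 h)
  · refine key p (-s) (by rw [neg_sq, hs]) l n hl hno h2 h3 hl1 ?_
    rw [← sub_eq_add_neg]
    exact sub_eq_zero.1 h

theorem specTrk : SpecTrk := by
  intro l n p hl hlo hno hpp hpW hl1
  refine ⟨hpp, ?_⟩
  have : Fact p.Prime := ⟨hpp⟩
  have : CharP (AlgebraicClosure (ZMod p)) p :=
    charP_of_injective_algebraMap (algebraMap (ZMod p) (AlgebraicClosure (ZMod p))).injective p
  exact main (F := AlgebraicClosure (ZMod p)) p l n hl hlo hno hpW hl1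

end Pool.Agent.Lib.MP_f53aaa_nt.TW.TRKM
end

section
/-! Module WIN (helper62): few `n` of a window with a given value of `V n` modulo a prime power. -/
set_option autoImplicit false

namespace Pool.Agent.Lib.MP_f53aaa_nt.TW.WINM

open Finset

theorem padd (i j : ℕ) :
    (pell (i + j)).1 = (pell i).1 * (pell j).1 + 8 * ((pell i).2 * (pell j).2) ∧
    (pell (i + j)).2 = (pell i).2 * (pell j).1 + (pell i).1 * (pell j).2 := by
  induction j with
  | zero => simp [pell]
  | succ j ih =>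
    obtain ⟨h1, h2⟩ := ih
    rw [← add_assoc]
    simp only [pell]
    rw [h1, h2]
    constructor <;> ring

theorem bpos (k : ℕ) (hk : 0 < k) : 0 < (pell k).2 := by
  obtain ⟨i, rfl⟩ : ∃ i, k = i + 1 := ⟨k - 1, by omega⟩
  have := Prim.pell_one_le i
  simp only [pell]
  omega

theorem blt (k : ℕ) : (pell k).2 < 6 ^ k := by
  have h1 := pell_eq k
  have h2 := Prim.pell_le k
  by_contra h
  push Not at h
  have h3 : (pell k).1 ≤ (pell k).2 := h2.trans h
  nlinarith

/-- `b_{i - j}` -/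
theorem bsub (Q : ℤ) (k j : ℕ) (h1 : Q ∣ ((pell (k + j)).2 : ℤ)) (h2 : Q ∣ ((pell j).2 : ℤ)) :
    Q ∣ ((pell k).2 : ℤ) := by
  obtain ⟨h3, h4⟩ := padd k j
  have h5 : ((pell k).2 : ℤ) = ((pell (k + j)).2 : ℤ) * ((pell j).1 : ℤ) -
      ((pell j).2 : ℤ) * ((pell (k + j)).1 : ℤ) := by
    rw [h3, h4]
    have h6 : ((pell j).1 : ℤ) ^ 2 = 8 * ((pell j).2 : ℤ) ^ 2 + 1 := by
      exact_mod_cast pell_eq j
    push_cast
    linear_combination (-((pell k).2 : ℤ)) * h6
  rw [h5]
  exact dvd_sub (Dvd.dvd.mul_right h1 _) (Dvd.dvd.mul_right h2 _)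

theorem vsub (N k : ℕ) : ((pell (N + 2 * k)).1 : ℤ) - ((pell N).1 : ℤ) =
    16 * (((pell k).2 : ℤ) * ((pell (N + k)).2 : ℤ)) := by
  have e : N + 2 * k = N + k + k := by ring
  rw [e, (padd (N + k) k).1, (padd N k).1, (padd N k).2]
  have h6 : ((pell k).1 : ℤ) ^ 2 = 8 * ((pell k).2 : ℤ) ^ 2 + 1 := by
    exact_mod_cast pell_eq k
  push_cast
  linear_combination ((pell N).1 : ℤ) * h6

theorem small {q f K : ℕ} (h6 : 6 ^ K ≤ q ^ f) (k : ℕ) (hk : 0 < k) (hkK : k < K) :
    ¬ ((q ^ f : ℕ) : ℤ) ∣ ((pell k).2 : ℤ) := by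
  intro h
  have h1 : q ^ f ∣ (pell k).2 := by exact_mod_cast h
  have h2 := Nat.le_of_dvd (bpos k hk) h1
  have h3 := blt k
  have h4 : 6 ^ k ≤ 6 ^ K := Nat.pow_le_pow_right (by norm_num) hkK.le
  omega

theorem pair {q e f K : ℕ} {c : ℤ} (hq : q.Prime) (hq2 : q ≠ 2) (hef : 2 * f ≤ e + 1)
    (h6 : 6 ^ K ≤ q ^ f) (n k : ℕ) (hk : 0 < k) (hkK : k < K)
    (h1 : (q : ℤ) ^ e ∣ 2 * ((pell (2 * n)).1 : ℤ) - c)
    (h2 : (q : ℤ) ^ e ∣ 2 * ((pell (2 * (n + k))).1 : ℤ) - c) :
    ((q ^ f : ℕ) : ℤ) ∣ ((pell (n + (n + k))).2 : ℤ) := by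
  have h3 := dvd_sub h2 h1
  have e1 : 2 * (n + k) = 2 * n + 2 * k := by ring
  have e2 : 2 * ((pell (2 * (n + k))).1 : ℤ) - c - (2 * ((pell (2 * n)).1 : ℤ) - c) =
      2 ^ 5 * (((pell k).2 : ℤ) * ((pell (2 * n + k)).2 : ℤ)) := by
    rw [e1]
    linear_combination 2 * vsub (2 * n) k
  rw [e2] at h3
  have hqZ : Prime (q : ℤ) := Nat.prime_iff_prime_int.1 hq
  have hcop : IsCoprime ((q : ℤ) ^ e) (2 ^ 5 : ℤ) := by
    refine IsCoprime.pow ?_
    have h10 : Nat.Coprime q 2 := (Nat.coprime_primes hq Nat.prime_two).2 hq2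
    exact_mod_cast Nat.isCoprime_iff_coprime.2 h10
  have h4 := hcop.dvd_of_dvd_mul_left h3
  have e3 : n + (n + k) = 2 * n + k := by ring
  rw [e3]
  have h5 : q ^ e ∣ (pell k).2 * (pell (2 * n + k)).2 := by exact_mod_cast h4
  have hpos1 := bpos k hk
  have hpos2 := bpos (2 * n + k) (by omega)
  by_contra h7
  have h8 : ¬ q ^ f ∣ (pell (2 * n + k)).2 := fun h => h7 (by exact_mod_cast h)
  have h9 : ¬ q ^ f ∣ (pell k).2 := fun h => small h6 k hk hkK (by exact_mod_cast h)
  have : Fact q.Prime := ⟨hq⟩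
  rw [padicValNat_dvd_iff_le (by positivity)] at h8 h9 h5
  rw [padicValNat.mul (by positivity) (by positivity)] at h5
  omega

theorem specWin : SpecWin := by
  intro q e f K R c hq hq2 hf hef hK h6
  have hsym : ∀ a b : ℕ, a ≠ b → a / K = b / K →
      (q : ℤ) ^ e ∣ 2 * ((pell (2 * a)).1 : ℤ) - c →
      (q : ℤ) ^ e ∣ 2 * ((pell (2 * b)).1 : ℤ) - c →
      ((q ^ f : ℕ) : ℤ) ∣ ((pell (a + b)).2 : ℤ) := by
    intro a b hab
    wlog h : a < b generalizing a b
    · intro h1 h2 h3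
      rw [add_comm]
      exact this b a hab.symm (by omega) h1.symm h3 h2
    · intro h1 h2 h3
      obtain ⟨k, rfl⟩ : ∃ k, b = a + k := ⟨b - a, by omega⟩
      refine pair hq hq2 hef h6 a k (by omega) ?_ h2 h3
      by_contra hkK
      have h4 : (a + K) / K ≤ (a + k) / K := Nat.div_le_div_right (by omega)
      rw [Nat.add_div_right _ hK] at h4
      omega
  refine (card_le_mul_card_image (f := fun n => n / K) _ 2 ?_).trans ?_
  · intro a _
    by_contra h
    push Not at h
    obtain ⟨x, hx, y, hy, z, hz, hxy, hxz, hyz⟩ := two_lt_card.1 h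
    simp only [mem_filter, mem_range] at hx hy hz
    have h1 := hsym x y hxy (by omega) hx.1.2 hy.1.2
    have h2 := hsym x z hxz (by omega) hx.1.2 hz.1.2
    have hfin : ∀ y z : ℕ, y < z → y / K = z / K → ((q ^ f : ℕ) : ℤ) ∣ ((pell (x + y)).2 : ℤ) →
        ((q ^ f : ℕ) : ℤ) ∣ ((pell (x + z)).2 : ℤ) → False := by
      intro y z hyz h3 h4 h5
      obtain ⟨k, rfl⟩ : ∃ k, z = y + k := ⟨z - y, by omega⟩
      have e1 : x + (y + k) = k + (x + y) := by ring
      rw [e1] at h5
      refine small h6 k (by omega) ?_ (bsub _ k (x + y) h5 h4)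
      by_contra hkK
      have h4 : (y + K) / K ≤ (y + k) / K := Nat.div_le_div_right (by omega)
      rw [Nat.add_div_right _ hK] at h4
      omega
    rcases Nat.lt_or_gt_of_ne hyz with h3 | h3
    · exact hfin y z h3 (by omega) h1 h2
    · exact hfin z y h3 (by omega) h2 h1
  · refine Nat.mul_le_mul_left 2 ?_
    have : (image (fun n => n / K) ((range R).filter
        (fun n => (q : ℤ) ^ e ∣ 2 * ((pell (2 * n)).1 : ℤ) - c))) ⊆ range (R / K + 1) := by
      intro a ha
      simp only [mem_image, mem_filter, mem_range] at ha ⊢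
      obtain ⟨n, ⟨hn, -⟩, rfl⟩ := ha
      have := Nat.div_le_div_right (c := K) hn.le
      omega
    refine (card_le_card this).trans ?_
    rw [card_range]

end Pool.Agent.Lib.MP_f53aaa_nt.TW.WINM
end

section
/-! # MP_f53aaa_nt: primes dividing terms of the sequence, assembly -/
set_option autoImplicit false

namespace Pool.Agent.Lib.MP_f53aaa_nt.TW.ALLM

theorem main : SpecFin2 :=
  FIN2M.specFin2 (NUM2M.specNum2 (GDM.specGd (PRTM.specPrt TRKM.specTrk) (CCM.specCc WINM.specWin))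
    (ASMM.specAsm ONEM.specOne BOXM.specBox SZM.specSz) PIM.specPi SZM.specSz)

end Pool.Agent.Lib.MP_f53aaa_nt.TW.ALLM
end
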