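import Pool.Agent.Lib.MP_f53aaa_nt.Prim.Distinct

/-!
# MP_f53aaa_nt: primes dividing terms of the sequence `8 d_m ^ 2 + 1`. Definitions

With `α = (1 + √2) ^ 4` and `V n = α ^ n + α ^ (-n) = 2 * (pell (2 * n)).1` one has
`val n = 8 d_n ^ 2 + 1 = 2 V n + 5 = norm (2 + α ^ n)`, and for odd `l`
`W l n = 4 ^ l + 1 + 2 ^ l * V n = norm ((-2) ^ l * α ^ n - 1) = Prim.E l n`.
-/

set_option autoImplicit false

namespace Pool.Agent.Lib.MP_f53aaa_nt.TW

open Finset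

/-- the primes which divide some `8 d_m ^ 2 + 1` with odd `m` -/
def TP : Set ℕ := {p | p.Prime ∧ ∃ m, Odd m ∧ p ∣ val m}

/-- `norm ((-2) ^ l * α ^ n - 1)` for odd `l` -/
def W (l n : ℕ) : ℕ := 4 ^ l + 1 + 2 ^ l * (2 * (pell (2 * n)).1)

/-- `p` has level at most `H`: modulo a prime above `p` there is a relation
`(-2) ^ a * α ^ b = 1` with `|a|, |b| ≤ H` -/
def Lvl (p H : ℕ) : Prop := ∃ a b : ℕ, a ≤ H ∧ b ≤ H ∧ ¬ (a = 0 ∧ b = 0) ∧ (p : ℤ) ∣ Prim.E a b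

/-- the part of `W l n` composed of the primes of `S` -/
noncomputable def gS (S : Finset ℕ) (l n : ℕ) : ℕ := ∏ p ∈ S, p ^ padicValNat p (W l n)

open Classical in
/-- the number of the `p ≤ x` in `TP` -/
noncomputable def tc (x : ℕ) : ℕ := ((range (x + 1)).filter (fun p => p ∈ TP)).card

end Pool.Agent.Lib.MP_f53aaa_nt.TW
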