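import Pool.Agent.Lib.MP_f53aaa_nt.TW.Defs

/-!
# MP_f53aaa_nt: primes dividing terms of the sequence. Interfaces

THEOREM (final form): there are arbitrarily large `x` such that at least
`(log x) ^ 2 / (log log x) ^ 3` primes `p ≤ x` divide some `8 d_m ^ 2 + 1` with odd `m`.

One file `TW/<MODULE>.lean` per module, namespace `Pool.Agent.Lib.MP_f53aaa_nt.TW.<MODULE>M`, with
the theorem `spec<Module> (h1 : SpecA) ... : Spec<Module>`. Useful lemmas: `Core.lean` (`pell`,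
`pell_eq`, `val_eq`, `val_mod3`), `Prim/Arith.lean` (`pell_cast`, `pell_le`, `E`, `E_ne`, `E_le`).

FIELD FACTS used in TRK, ONE, BOX. For a prime `p ≥ 3` let `F` be an algebraically closed field of
characteristic `p` (`AlgebraicClosure (ZMod p)`), `s ∈ F` with `s ^ 2 = 2`, `x = (1 + s) ^ 4`, so
`x ≠ 0` and `x⁻¹ = (1 - s) ^ 4` as `(1 + s) (1 - s) = -1`. By `Prim.pell_cast`:
`(2 * (pell (2 * n)).1 : F) = x ^ n + x⁻¹ ^ n`. Hence
`(E a b : F) = ((-2) ^ a * x ^ b - 1) * ((-2) ^ a * x⁻¹ ^ b - 1)`, and `W l n = E l n` for odd `l`;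
`(val m : F) = 2 * (x ^ m + x⁻¹ ^ m) + 5 = (x ^ m + 2) * (2 * x ^ m + 1) / x ^ m`
(`8 d_m ^ 2 + 1 = 4 (2 d_m ^ 2 - 1) + 5`, `(pell (2 * m)).1 = 2 * (pell m).1 ^ 2 - 1`).
By Frobenius `s ^ p = s` or `s ^ p = -s`, so `x ^ p = x` or `x ^ p = x⁻¹`; `x` has finite order.
-/

set_option autoImplicit false

namespace Pool.Agent.Lib.MP_f53aaa_nt.TW

open Finset

/-- MODULE TRK (~150 lines). THE TRICK: a prime factor of `W l n` not `1` modulo `l` is in `TP`.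
Proof. `p ≠ 2` as `W` is odd; `p ≠ 3`: for odd `l`, `n` `W l n = 1 mod 3` (`(pell (2 * n)).1 =
2 d_n ^ 2 - 1 = 2 mod 3`, `2 ^ l = 2 mod 3`). In `F` (see above) `(-2) ^ l * x ^ n = 1` or the same
with `x⁻¹` (exchange `s` and `-s`), so say the first. Put `u = -2`; `u ^ (p - 1) = 1`.
Case `x ^ p = x⁻¹`: `x ^ (p + 1) = 1`, so `u ^ (l * (p + 1)) = 1`, `u ^ (2 * l) = 1`, `4 ^ l = 1`;
`4 ^ (p - 1) = 1` and `gcd l (p - 1) = 1` (`l` is a prime not dividing `p - 1`) give `4 = 1`, `p = 3`.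
Case `x ^ p = x`: `x ^ (p - 1) = 1`. Take `k` with `l * k = 1 mod (p - 1)`; `k` is odd as `p - 1` is
even. `u = u ^ (l * k) = x ^ (- n * k)`; choose `m ≥ 0`, `m = - n * k mod (p - 1)`, so `m` is odd and
`x ^ m = -2`, so `val m = 0` in `F`. -/
def SpecTrk : Prop :=
  ∀ l n p : ℕ, l.Prime → Odd l → Odd n → p.Prime → p ∣ W l n → ¬ (p ≡ 1 [MOD l]) → p ∈ TP

/-- MODULE PRT (~80 lines). If all the prime factors in `TP` of `W l n` are in `S` then the `S`-part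
of `W l n` is `val n` modulo `l`. Proof: `W l n = ∏ p ^ v_p` over its prime factors; those outside
`S` are `1` modulo `l` (`SpecTrk`); `W l n = 4 + 1 + 2 V n = val n mod l` by Fermat's little theorem
(`4 ^ l = 4`, `2 ^ l = 2` mod `l`; `8 d_n ^ 2 + 1 = 4 (pell (2 * n)).1 + 5`). For `p ∈ S` not
dividing `W l n` the exponent is `0`. -/
def SpecPrt : Prop :=
  ∀ (S : Finset ℕ) (l n : ℕ), (∀ p ∈ S, p.Prime) → l.Prime → Odd l → Odd n →
    (∀ p ∈ TP, p ∣ W l n → p ∈ S) → gS S l n ≡ val n [MOD l]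

/-- MODULE WIN (~150 lines). In a window of length `K` at most two `n` have
`V n = c mod q ^ e`, when `6 ^ K ≤ q ^ f`, `2 f ≤ e + 1`. Proof. With `b_k = (pell k).2`:
`V n' - V n = 32 b_{n' - n} b_{n' + n}` for `n < n'`, i.e. `2 d_{2 n'} - 2 d_{2 n} =
32 b_{n'-n} b_{n'+n}` (addition formulas `d_{i+j} = d_i d_j + 8 b_i b_j`,
`b_{i+j} = b_i d_j + d_i b_j`, and `b_{i-j} = b_i d_j - b_j d_i` for `j ≤ i`). If `n < n' < n'' <
n + K` are three solutions then `q ^ e` divides `b_{n'-n} b_{n'+n}` (`q` odd), so `q ^ f` divides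
one of the two factors; `0 < b_k < 6 ^ k` for `k > 0` excludes the first; so `q ^ f ∣ b_{n'+n}` and
in the same way `q ^ f ∣ b_{n''+n}`, hence `q ^ f ∣ b_{n''-n'}`, contradiction. `range R` is covered
by `R / K + 1` windows `[i K, (i + 1) K)`. -/
def SpecWin : Prop :=
  ∀ (q e f K R : ℕ) (c : ℤ), q.Prime → q ≠ 2 → 1 ≤ f → 2 * f ≤ e + 1 → 0 < K → 6 ^ K ≤ q ^ f →
    ((range R).filter (fun n => (q : ℤ) ^ e ∣ 2 * ((pell (2 * n)).1 : ℤ) - c)).card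
      ≤ 2 * (R / K + 1)

open Classical in
/-- MODULE CC (~150 lines), uses WIN. For a fixed finite set `S` of odd primes, large primes `l` and
large `R` at most `R / 16` of the `n < R` have `gS S l n = val n mod l`. Proof.
`K = 128 (|S| + 1)`, `E = 4 K`, `G = (∏ p ∈ S, p) ^ E`, `l0 = 6 ^ (128 (G + 2)) + ...`.
(a) For `p ∈ S` at most `2 (R / K + 1)` of the `n < R` have `p ^ E ∣ W l n`: `p ^ E` divides
`W l n = 4 ^ l + 1 + 2 ^ l V n` iff `V n = c mod p ^ E` where `2 ^ l c = -(4 ^ l + 1) mod p ^ E` (`2`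
is invertible); use WIN with `e = E`, `f = 2 K`, `3 ^ (2 K) = 9 ^ K ≥ 6 ^ K`. In total at most
`|S| * 2 (R / K + 1) ≤ R / 32` for `R ≥ 128 (|S| + 1)`.
(b) Otherwise all exponents are `< E` and `g = gS S l n ≤ G`. For each `g ≤ G` at most
`2 (R / K' + 1)` of the `n < R` have `val n = g mod l`, where `6 ^ K' ≤ l`, `K' = 128 (G + 2)`:
`val n = 2 V n + 5` (i.e. `8 d_n ^ 2 + 1 = 4 (pell (2 * n)).1 + 5`), so `V n = c mod l` with
`2 c = g - 5 mod l`; WIN with `e = f = 1`. In total at most `(G + 1) * 2 (R / K' + 1) ≤ R / 32` for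
`R ≥ 128 (G + 2)`. -/
def SpecCc : Prop :=
  ∀ S : Finset ℕ, (∀ p ∈ S, p.Prime ∧ p ≠ 2) → ∃ l0 : ℕ, ∀ l R : ℕ, l.Prime → l0 ≤ l → l0 ≤ R →
    16 * ((range R).filter (fun n => gS S l n ≡ val n [MOD l])).card ≤ R

open Classical in
/-- MODULE GD (~50 lines), uses PRT, CC. For all large primes `l` and all large `R` at least `3/8` of
the `n < R` are odd and such that `W l n` has a prime factor in `TP` outside `S`. Proof: at least
`(R - 1) / 2` of the `n < R` are odd; if no prime factor of `W l n` is in `TP \ S` then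
`gS S l n = val n mod l` (PRT); so at least `(R - 1) / 2 - R / 16 ≥ 3 R / 8` for `R ≥ 8`
(take `l0' = max l0 8`, so that `l` is odd). -/
def SpecGd : Prop :=
  ∀ S : Finset ℕ, (∀ p ∈ S, p.Prime ∧ p ≠ 2) → ∃ l0 : ℕ, ∀ l R : ℕ, l.Prime → l0 ≤ l → l0 ≤ R →
    3 * R ≤ 8 * ((range R).filter
      (fun n => Odd n ∧ ∃ p ∈ TP, p ∉ S ∧ p ∣ W l n)).card

/-- MODULE ONE (~150 lines). One `l`. Let `p ∈ TP` not be of level `≤ H`. Then `p` divides `W l n`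
for at most `2 (R / (H + 1) ^ 2 + 1)` of the `n < R`. Proof. `p` is odd (`val m` is odd) and in `F`
(see above) `x ^ m = -2` or `x⁻¹ ^ m = -2` for some `m`; exchange `s` and `-s` so that the first
holds. Let `o = orderOf x`, finite. If `o < (H + 1) ^ 2` then two of the pairs
`(a, b) ∈ [0, H] ^ 2` have the same `m a + b mod o`, that is `(-2) ^ a * x ^ b = (-2) ^ a' * x ^ b'`,
and with `a' ≤ a` this is `(-2) ^ (a - a') * x ^ (b - b') = 1` (the exponent of `x` may be negative: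
then use `x⁻¹`), so `p ∣ E (a - a') |b - b'|`: level `≤ H`. So `(H + 1) ^ 2 ≤ o`. Now `p ∣ W l n`
iff `(-2) ^ l * x ^ n = 1` or `(-2) ^ l * x⁻¹ ^ n = 1`; each is at most one class of `n` modulo `o`
(two solutions differ by a multiple of `o`), at most `R / o + 1` of the `n < R`. -/
def SpecOne : Prop :=
  ∀ p ∈ TP, ∀ H : ℕ, ¬ Lvl p H → ∀ l R : ℕ, Odd l →
    ((range R).filter (fun n => p ∣ W l n)).card ≤ 2 * (R / (H + 1) ^ 2 + 1)

open Classical in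
/-- MODULE BOX (~120 lines). The box. Let `p` be an odd prime not of level `≤ H`, `H ≥ 1`. Then `p`
divides `W l n` for at most `2 ((R - 1) / H + 1) ^ 2` of the pairs `l, n < R`, `l` odd. Proof. The
pairs with `(-2) ^ l * x ^ n = 1` (in `F`): the map `(l, n) ↦ (l / H, n / H)` is injective on them,
as two of them with the same image differ by a nonzero vector `(a, b)`, `|a|, |b| < H`, with
`(-2) ^ a * x ^ b = 1`, so `p ∣ E |a| |b|` (invert, or use `x⁻¹`). Its image is in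
`range ((R - 1) / H + 1) ×ˢ range ((R - 1) / H + 1)` (for `R ≥ 1`; the case `R = 0` is trivial). The
same for `x⁻¹`. -/
def SpecBox : Prop :=
  ∀ p : ℕ, p.Prime → p ≠ 2 → ∀ H R : ℕ, 1 ≤ H → ¬ Lvl p H →
    ((range R ×ˢ range R).filter (fun x => Odd x.1 ∧ p ∣ W x.1 x.2)).card
      ≤ 2 * ((R - 1) / H + 1) ^ 2

/-- MODULE SZ (~40 lines). Sizes: `E_ne`, `E_le`, `4 * 72 ^ H ≤ 100 ^ H` for `5 ≤ H`;
`W l n = E l n` for odd `l`, or directly `W l n ≤ 4 ^ R + 1 + 2 ^ R * 2 * 36 ^ R ≤ 100 ^ R`. -/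
def SpecSz : Prop :=
  (∀ p H : ℕ, 5 ≤ H → Lvl p H → p ≤ 100 ^ H) ∧
  (∀ l n R : ℕ, 5 ≤ R → l < R → n < R → W l n ≤ 100 ^ R)

open Classical in
/-- MODULE ASM (~200 lines), uses ONE, BOX, SZ. The count. `R = 2 ^ J`, `3 ≤ j0 ≤ j1 ≤ J`, `P` a set
of odd primes below `R`; suppose that for every `l ∈ P` at least `3 R / 8` of the `n < R` have a
prime factor of `W l n` in `TP` which is not of level `≤ 2 ^ j0`. With `τ_j = tc (100 ^ 2 ^ j)`,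
a bound for the number of the `p ∈ TP` of level `≤ 2 ^ j` (SZ):
`3 R |P| ≤ 8 (|P| ∑_{j0 ≤ j < j1} τ_{j+1} 2 (R / 4 ^ j + 1) + ∑_{j1 ≤ j < J} τ_{j+1} 2 4 ^ (J - j) +
2 τ_J)`. Proof. For such `(l, n)` choose `p`. Either `p` has level `≤ 2 ^ j1`; then there is
`j0 ≤ j < j1` with `p` not of level `≤ 2 ^ j` but of level `≤ 2 ^ (j + 1)`: for fixed `l` use ONE
(`(2 ^ j + 1) ^ 2 ≥ 4 ^ j`). Or `p` has not level `≤ 2 ^ j1` but level `≤ 2 ^ J`: the same with BOX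
(`(2 ^ J - 1) / 2 ^ j + 1 = 2 ^ (J - j)`), counting pairs. Or `p` is not of level `≤ 2 ^ J`: BOX with
`H = R` gives at most `2` pairs for each `p`, and `p ≤ W l n ≤ 100 ^ R`, so at most `τ_J` such
`p`. -/
def SpecAsm : Prop :=
  ∀ (j0 j1 J : ℕ) (P : Finset ℕ), 3 ≤ j0 → j0 ≤ j1 → j1 ≤ J →
    (∀ l ∈ P, Odd l ∧ l < 2 ^ J) →
    (∀ l ∈ P, 3 * 2 ^ J ≤ 8 * ((range (2 ^ J)).filter
      (fun n => Odd n ∧ ∃ p ∈ TP, ¬ Lvl p (2 ^ j0) ∧ p ∣ W l n)).card) →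
    3 * 2 ^ J * P.card ≤ 8 * (P.card * ∑ j ∈ Ico j0 j1, tc (100 ^ 2 ^ (j + 1)) *
        (2 * (2 ^ J / 4 ^ j + 1)) +
      ∑ j ∈ Ico j1 J, tc (100 ^ 2 ^ (j + 1)) * (2 * 4 ^ (J - j)) + 2 * tc (100 ^ 2 ^ J))

/-- MODULE PI (~60 lines). For large `J` at least `2 ^ J / (4 J)` primes lie in `[L, 2 ^ J)`.
Proof: Mathlib's `Chebyshev.pi_ge` (`(n log 2 - log (n + 1)) / log n ≤ π n`) with `n = 2 ^ J - 1`
gives `π (2 ^ J - 1) ≥ 2 ^ J / (2 J)` for large `J`; `2 ^ J / (4 J) ≥ L` for large `J`. -/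
def SpecPi : Prop :=
  ∀ L : ℕ, ∃ J0 : ℕ, ∀ J ≥ J0,
    2 ^ J ≤ 4 * J * ((range (2 ^ J)).filter (fun l => l.Prime ∧ L ≤ l)).card

/-- MODULE NUM (~120 lines), uses GD, ASM, PI. The contradiction. Suppose `τ_j j ^ 3 ≤ 64 * 4 ^ j` for
`j ≥ i0`. Take `j0 = max i0 128`, `S` = the finite set of the `p ∈ TP`, `p ≤ 100 ^ 2 ^ j0`, of level
`≤ 2 ^ j0` (by SZ `p ∈ TP`, `p ∉ S` implies `¬ Lvl p (2 ^ j0)`), `P` = the primes in
`[l0 + 3, 2 ^ J)`, `j1 = J / 4`, `J` large. ASM and `τ_{j+1} ≤ 64 * 4 ^ (j+1) / (j+1) ^ 3` give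
(reals) `3 R |P| ≤ 16 (|P| ∑_{j0 ≤ j < j1} 256 (R + 4 ^ j) / (j+1) ^ 3 +
∑_{j1 ≤ j < J} 256 R ^ 2 / (j+1) ^ 3 + 64 R ^ 2 / J ^ 3)`; `4 ^ j ≤ R`,
`∑_{j ≥ i} 1 / (j+1) ^ 3 ≤ 1 / i ^ 2` (`1 / (j+1) ^ 3 ≤ 1 / j ^ 2 - 1 / (j+1) ^ 2`), so
`3 R |P| ≤ R |P| 8192 / j0 ^ 2 + 4096 R ^ 2 / j1 ^ 2 + 1024 R ^ 2 / J ^ 3`; `8192 / j0 ^ 2 ≤ 1` and
`|P| ≥ R / (4 J)` give `1 / (2 J) ≤ 4096 / j1 ^ 2 + 1024 / J ^ 3`, false for large `J`. -/
def SpecNum : Prop :=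
  ¬ ∃ i0 : ℕ, ∀ j ≥ i0, tc (100 ^ 2 ^ j) * j ^ 3 ≤ 64 * 4 ^ j

/-- MODULE FIN (~60 lines), uses NUM. The final statement. Suppose it fails for `x0`. For large `j`
take `x = 100 ^ 2 ^ j`: `log x = 2 ^ j log 100`, `log log x ≥ j log 2 > 0`, so
`τ_j < (2 ^ j log 100) ^ 2 / (j log 2) ^ 3 ≤ 64 * 4 ^ j / j ^ 3` (`log 100 < 4.606`,
`log 2 > 0.6931`), against NUM. -/
def SpecFin : Prop :=
  ∀ x0 : ℝ, ∃ x ≥ x0, Real.log x ^ 2 / Real.log (Real.log x) ^ 3 ≤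
    (({p : ℕ | p.Prime ∧ (p : ℝ) ≤ x ∧ ∃ m, Odd m ∧ p ∣ 8 * (pell m).1 ^ 2 + 1}.ncard : ℕ) : ℝ)

end Pool.Agent.Lib.MP_f53aaa_nt.TW
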